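import Mathlib

/-!
# Bit masks and packed numbers
-/

set_option autoImplicit false

namespace Pool.Agent.H39Chif

/-- the bits of `M` are bits of `x` -/
def sb (M x : ℕ) : Prop := M &&& x = M

instance (M x : ℕ) : Decidable (sb M x) := by unfold sb; infer_instance

theorem sb_iff {M x : ℕ} : sb M x ↔ ∀ i, M.testBit i = true → x.testBit i = true := by
  unfold sb
  constructor
  · intro h i hi
    have h1 := congrArg (fun z => Nat.testBit z i) h
    simp only [Nat.testBit_land, hi, Bool.true_and] at h1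
    exact h1
  · intro h
    apply Nat.eq_of_testBit_eq
    intro i
    rw [Nat.testBit_land]
    cases hM : M.testBit i with
    | false => rfl
    | true => rw [h i hM]; rfl

theorem sb_zero (x : ℕ) : sb 0 x := by unfold sb; exact Nat.zero_and x

theorem sb_lor {M M' x : ℕ} : sb (M ||| M') x ↔ sb M x ∧ sb M' x := by
  simp only [sb_iff, Nat.testBit_lor, Bool.or_eq_true]
  constructor
  · intro h
    exact ⟨fun i hi => h i (Or.inl hi), fun i hi => h i (Or.inr hi)⟩
  · rintro ⟨h1, h2⟩ i (hi | hi)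
    · exact h1 i hi
    · exact h2 i hi

theorem sb_split (p : ℕ) {M x : ℕ} :
    sb M x ↔ sb (M % 2 ^ p) (x % 2 ^ p) ∧ sb (M / 2 ^ p) (x / 2 ^ p) := by
  simp only [sb_iff, Nat.testBit_mod_two_pow, Nat.testBit_div_two_pow, Bool.and_eq_true,
    decide_eq_true_eq]
  constructor
  · intro h
    exact ⟨fun i hi => ⟨hi.1, h i hi.2⟩, fun i hi => h _ hi⟩
  · rintro ⟨h1, h2⟩ i hi
    by_cases hp : i < p
    · exact (h1 i ⟨hp, hi⟩).2
    · have := h2 (i - p)
      rw [Nat.sub_add_cancel (by omega)] at this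
      exact this hi

theorem sb_mod {p M x : ℕ} (hM : M < 2 ^ p) : sb M (x % 2 ^ p) ↔ sb M x := by
  simp only [sb_iff, Nat.testBit_mod_two_pow, Bool.and_eq_true, decide_eq_true_eq]
  constructor
  · intro h i hi
    exact (h i hi).2
  · intro h i hi
    refine ⟨?_, h i hi⟩
    by_contra hp
    rw [Nat.testBit_lt_two_pow (lt_of_lt_of_le hM (Nat.pow_le_pow_right (by norm_num)
      (by omega)))] at hi
    exact absurd hi (by simp)

/-- force the evaluation of a number: the kernel replaces `n` by a literal -/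
noncomputable def force (n : ℕ) (f : ℕ → Bool) : Bool :=
  Nat.rec (motive := fun _ => Bool) false (fun m _ => f m) (Nat.add n 1)

theorem force_eq (n : ℕ) (f : ℕ → Bool) : force n f = f n := rfl

/-- selection -/
def sel (c a b : Bool) : Bool := @Bool.rec (fun _ => Bool) b a c

theorem selT (a b : Bool) : sel true a b = a := rfl
theorem selF (a b : Bool) : sel false a b = b := rfl
theorem sel_and (a b : Bool) : sel a b false = (a && b) := by cases a <;> rfl

/-- packed sum -/
def pk (b : ℕ) (h : ℕ → ℕ) : List ℕ → ℕ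
  | [] => 0
  | K :: Ks => h K + 2 ^ b * pk b h Ks

theorem pk_add (b : ℕ) (h g : ℕ → ℕ) (Ks : List ℕ) :
    pk b h Ks + pk b g Ks = pk b (fun K => h K + g K) Ks := by
  induction Ks with
  | nil => rfl
  | cons K Ks ih =>
    simp only [pk]
    rw [← ih]
    ring

theorem pk_mul (b c : ℕ) (h : ℕ → ℕ) (Ks : List ℕ) :
    c * pk b h Ks = pk b (fun K => c * h K) Ks := by
  induction Ks with
  | nil => rfl
  | cons K Ks ih =>
    simp only [pk]
    rw [← ih]
    ring

theorem pk_le (b : ℕ) {h g : ℕ → ℕ} {Ks : List ℕ} (hle : ∀ K ∈ Ks, h K ≤ g K) :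
    pk b h Ks ≤ pk b g Ks := by
  induction Ks with
  | nil => exact le_rfl
  | cons K Ks ih =>
    simp only [pk]
    exact Nat.add_le_add (hle K List.mem_cons_self)
      (Nat.mul_le_mul_left _ (ih fun K' hK' => hle K' (List.mem_cons_of_mem _ hK')))

theorem pk_zero (b : ℕ) (Ks : List ℕ) : pk b (fun _ => 0) Ks = 0 := by
  induction Ks with
  | nil => rfl
  | cons K Ks ih => simp only [pk, ih]; simp

theorem pk_congr (b : ℕ) {h g : ℕ → ℕ} {Ks : List ℕ} (hle : ∀ K ∈ Ks, h K = g K) :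
    pk b h Ks = pk b g Ks :=
  le_antisymm (pk_le b fun K hK => (hle K hK).le) (pk_le b fun K hK => (hle K hK).ge)

theorem land_pack {b a a' x y : ℕ} (ha : a < 2 ^ b) (ha' : a' < 2 ^ b) :
    (a + 2 ^ b * x) &&& (a' + 2 ^ b * y) = (a &&& a') + 2 ^ b * (x &&& y) := by
  apply Nat.eq_of_testBit_eq
  intro i
  rw [Nat.testBit_land, add_comm a, add_comm a', add_comm (a &&& a'),
    Nat.testBit_two_pow_mul_add x ha, Nat.testBit_two_pow_mul_add y ha',
    Nat.testBit_two_pow_mul_add _ (lt_of_le_of_lt Nat.and_le_left ha)]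
  split_ifs
  · rw [Nat.testBit_land]
  · rw [Nat.testBit_land]

theorem pk_land (b : ℕ) {h g : ℕ → ℕ} {Ks : List ℕ} (hh : ∀ K ∈ Ks, h K < 2 ^ b)
    (hg : ∀ K ∈ Ks, g K < 2 ^ b) :
    pk b h Ks &&& pk b g Ks = pk b (fun K => h K &&& g K) Ks := by
  induction Ks with
  | nil => simp [pk]
  | cons K Ks ih =>
    simp only [pk]
    rw [land_pack (hh K List.mem_cons_self) (hg K List.mem_cons_self),
      ih (fun K' hK' => hh K' (List.mem_cons_of_mem _ hK'))
        (fun K' hK' => hg K' (List.mem_cons_of_mem _ hK'))]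

theorem pk_inj (b : ℕ) {h g : ℕ → ℕ} {Ks : List ℕ} (hh : ∀ K ∈ Ks, h K < 2 ^ b)
    (hg : ∀ K ∈ Ks, g K < 2 ^ b) (he : pk b h Ks = pk b g Ks) : ∀ K ∈ Ks, h K = g K := by
  induction Ks with
  | nil => intro K hK; exact absurd hK (by simp)
  | cons K Ks ih =>
    simp only [pk] at he
    have h1 : h K = g K := by
      have := congrArg (· % 2 ^ b) he
      simpa [Nat.mod_eq_of_lt (hh K List.mem_cons_self),
        Nat.mod_eq_of_lt (hg K List.mem_cons_self)] using this
    have h2 : pk b h Ks = pk b g Ks := by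
      rw [h1] at he
      exact Nat.eq_of_mul_eq_mul_left (by positivity) (Nat.add_left_cancel he)
    intro K' hK'
    rcases List.mem_cons.1 hK' with rfl | hK'
    · exact h1
    · exact ih (fun K' hK' => hh K' (List.mem_cons_of_mem _ hK'))
        (fun K' hK' => hg K' (List.mem_cons_of_mem _ hK')) h2 K' hK'

theorem land_half {b g : ℕ} (h : g &&& 2 ^ (b - 1) = 2 ^ (b - 1)) : 2 ^ (b - 1) ≤ g := by
  rw [← h]
  exact Nat.and_le_left

/-- the final comparison -/
theorem leaf_sound {b D : ℕ} (hb : 0 < b) {pos neg v : ℕ → ℕ} {Ks : List ℕ}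
    (hv : ∀ K ∈ Ks, v K ≤ 1) (tot : ℕ) (hpos : ∀ K ∈ Ks, pos K ≤ tot)
    (hneg : ∀ K ∈ Ks, neg K ≤ tot) (htot : tot + D < 2 ^ (b - 1))
    (h : (pk b (fun _ => 2 ^ (b - 1) + D) Ks + pk b neg Ks - pk b pos Ks) &&&
      (pk b v Ks * 2 ^ (b - 1)) = pk b v Ks * 2 ^ (b - 1)) :
    ∀ K ∈ Ks, v K = 1 → pos K ≤ D + neg K := by
  have hpow : 2 ^ b = 2 ^ (b - 1) + 2 ^ (b - 1) := by
    conv_lhs => rw [← Nat.sub_add_cancel hb]
    rw [pow_succ]
    ring
  set g : ℕ → ℕ := fun K => 2 ^ (b - 1) + D + neg K - pos K with hg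
  have e1 : pk b (fun _ => 2 ^ (b - 1) + D) Ks + pk b neg Ks - pk b pos Ks = pk b g Ks := by
    rw [pk_add]
    apply Nat.sub_eq_of_eq_add
    rw [pk_add]
    refine pk_congr b fun K hK => ?_
    have := hpos K hK
    simp only [hg]
    omega
  have e2 : pk b v Ks * 2 ^ (b - 1) = pk b (fun K => 2 ^ (b - 1) * v K) Ks := by
    rw [mul_comm, pk_mul]
  have hvb : ∀ K ∈ Ks, 2 ^ (b - 1) * v K < 2 ^ b := by
    intro K hK
    have h1 := hv K hK
    calc 2 ^ (b - 1) * v K ≤ 2 ^ (b - 1) * 1 := Nat.mul_le_mul_left _ h1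
      _ < 2 ^ b := by rw [hpow, mul_one]; exact Nat.lt_add_of_pos_left (by positivity)
  have hgb : ∀ K ∈ Ks, g K < 2 ^ b := by
    intro K hK
    have h1 := hneg K hK
    simp only [hg]
    omega
  rw [e1, e2, pk_land b hgb hvb] at h
  have h2 := pk_inj b (fun K hK => lt_of_le_of_lt Nat.and_le_left (hgb K hK)) hvb h
  intro K hK hvK
  have h3 := h2 K hK
  rw [hvK, mul_one] at h3
  have h4 := land_half h3
  have h5 := hpos K hK
  simp only [hg] at h4
  omega

end Pool.Agent.H39Chif
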