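import Pool.Agent.Helper39_Chif.Core
import Pool.Agent.Helper18_FC.Dec

/-!
# Reading the certificate into a tree of masks
-/

set_option autoImplicit false

namespace Pool.Agent.H39Chif

open Pool.Agent.H18FC (decCls decMs decMem lst fld cOff Cls)

/-- the mask of a list -/
def mask (l : List ℕ) : ℕ := l.foldr (fun v m => 2 ^ v ||| m) 0

theorem mask_testBit (l : List ℕ) (i : ℕ) : (mask l).testBit i = true ↔ i ∈ l := by
  induction l with
  | nil => simp [mask]
  | cons v l ih =>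
    have h : mask (v :: l) = 2 ^ v ||| mask l := rfl
    rw [h, Nat.testBit_lor, Bool.or_eq_true, ih, Nat.testBit_two_pow, List.mem_cons,
      decide_eq_true_eq, eq_comm]

/-- the mask of `k` fields -/
noncomputable def mskF (x k : ℕ) : ℕ → ℕ :=
  Nat.rec (motive := fun _ => ℕ → ℕ) (fun _ => 0)
    (fun _ ih i => Nat.lor (Nat.shiftLeft 1 (Nat.mod (Nat.shiftRight x i) 64)) (ih (Nat.add i 6))) k

theorem mskF_eq (x : ℕ) : ∀ k i, mskF x k i = mask (lst x k i)
  | 0, _ => rfl
  | k + 1, i => by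
    show Nat.lor (Nat.shiftLeft 1 (Nat.mod (Nat.shiftRight x i) 64)) (mskF x k (Nat.add i 6)) =
      2 ^ (fld x i) ||| mask (lst x k (Nat.add i 6))
    rw [mskF_eq x k]
    show Nat.shiftLeft 1 (fld x i) ||| _ = _
    have : Nat.shiftLeft 1 (fld x i) = 2 ^ (fld x i) := Nat.one_shiftLeft _
    rw [this]

/-- a member of a class -/
abbrev Mb : Type := List ℕ × (Bool × Bool) × ℤ

/-- negative part of the value -/
def vN (p : ℕ) (z : ℕ → ℕ) (x : ℕ) (l : List Mb) : ℕ :=
  (l.map fun m => if sb (mask m.1 % 2 ^ p) x then (-m.2.2).toNat * z (mask m.1 / 2 ^ p) else 0).sum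

/-- positive part of the value -/
def vP (p : ℕ) (z : ℕ → ℕ) (x : ℕ) (l : List Mb) : ℕ :=
  (l.map fun m => if sb (mask m.1 % 2 ^ p) x then m.2.2.toNat * z (mask m.1 / 2 ^ p) else 0).sum

/-- sum of the absolute values -/
def vT (l : List Mb) : ℕ := (l.map fun m => m.2.2.natAbs).sum

/-- the weights in the state -/
structure St where
  T : Tr
  A : ℕ
  S : ℕ
  t : ℕ

/-- `s'` is the state `s` together with the members `l` -/
def Step (p : ℕ) (z : ℕ → ℕ) (l : List Mb) (s s' : St) : Prop :=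
  (∀ x, s'.A + tA s'.T x = s.A + tA s.T x + vN p z x l ∧
    s'.S + tS s'.T x = s.S + tS s.T x + vP p z x l) ∧ s'.t = s.t + vT l

theorem Step.nil (p : ℕ) (z : ℕ → ℕ) (s : St) : Step p z [] s s :=
  ⟨fun x => ⟨rfl, rfl⟩, rfl⟩

theorem Step.append {p : ℕ} {z : ℕ → ℕ} {l l' : List Mb} {s s' s'' : St} (h : Step p z l s s')
    (h' : Step p z l' s' s'') : Step p z (l ++ l') s s'' := by
  refine ⟨fun x => ⟨?_, ?_⟩, ?_⟩
  · rw [(h'.1 x).1, (h.1 x).1, add_assoc]
    congr 1
    simp [vN]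
  · rw [(h'.1 x).2, (h.1 x).2, add_assoc]
    congr 1
    simp [vP]
  · rw [h'.2, h.2, add_assoc]
    congr 1
    simp [vT]

/-- insert one mask into the tree or add it to the constant part -/
noncomputable def addR (pos : Bool) (R w : ℕ) (T : Tr) (A S : ℕ) (k : Tr → ℕ → ℕ → Bool) : Bool :=
  @Bool.rec (fun _ => Bool) (insT pos w 8 R T fun T' => k T' A S)
    (@Bool.rec (fun _ => Bool) (force (Nat.add A w) fun A' => k T A' S)
      (force (Nat.add S w) fun S' => k T A S') pos) (Nat.beq R 0)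

/-- insert one mask -/
noncomputable def addM (p : ℕ) (z : ℕ → ℕ) (pos : Bool) (m M : ℕ) (T : Tr) (A S : ℕ)
    (k : Tr → ℕ → ℕ → Bool) : Bool :=
  force (Nat.mod M (Nat.pow 2 p)) fun R => force (Nat.shiftRight M p) fun a =>
    force (Nat.mul m (z a)) fun w => addR pos R w T A S k

theorem addM_spec (p : ℕ) (z : ℕ → ℕ) (pos : Bool) (m M : ℕ) (T : Tr) (A S : ℕ) :
    ∃ T' A' S', (∀ k : Tr → ℕ → ℕ → Bool, addM p z pos m M T A S k = k T' A' S') ∧
      ∀ x, A' + tA T' x = A + tA T x +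
          (if pos = false ∧ sb (M % 2 ^ p) x then m * z (M / 2 ^ p) else 0) ∧
        S' + tS T' x = S + tS T x +
          (if pos = true ∧ sb (M % 2 ^ p) x then m * z (M / 2 ^ p) else 0) := by
  obtain ⟨R, hR⟩ : ∃ R, R = M % 2 ^ p := ⟨_, rfl⟩
  obtain ⟨w, hw⟩ : ∃ w, w = m * z (M / 2 ^ p) := ⟨_, rfl⟩
  rw [← hR, ← hw]
  have hs : Nat.shiftRight M p = M / 2 ^ p := Nat.shiftRight_eq_div_pow M p
  have hu : ∀ k : Tr → ℕ → ℕ → Bool, addM p z pos m M T A S k =
      sel (Nat.beq R 0)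
        (sel pos (k T A (S + w)) (k T (A + w) S))
        (insT pos w 8 R T fun T' => k T' A S) := by
    intro k
    have hR' : Nat.mod M (Nat.pow 2 p) = R := hR.symm
    have hw' : Nat.mul m (z (M / 2 ^ p)) = w := hw.symm
    unfold addM
    rw [force_eq, force_eq, force_eq, hs, hR', hw']
    rfl
  by_cases h0 : R = 0
  · have e1 : Nat.beq R 0 = true := by rw [Nat.beq_eq]; exact h0
    have h1 : ∀ x, sb R x := fun x => by rw [h0]; exact sb_zero x
    cases pos with
    | false =>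
      refine ⟨T, A + w, S, fun k => by rw [hu, e1, selT, selF], fun x => ?_⟩
      simp only [h1 x]
      simp
      omega
    | true =>
      refine ⟨T, A, S + w, fun k => by rw [hu, e1, selT, selT], fun x => ?_⟩
      simp only [h1 x]
      simp
      omega
  · have e1 : Nat.beq R 0 = false := by rw [← Bool.not_eq_true, Nat.beq_eq]; exact h0
    obtain ⟨T', h1, h2⟩ := insT_spec pos w 8 R h0 T
    refine ⟨T', A, S, fun k => by rw [hu, e1, selF, h1], fun x => ?_⟩
    rw [(h2 x).1, (h2 x).2]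
    constructor <;> rw [add_assoc]

/-- insert one member, with nonnegative or negative coefficient -/
noncomputable def bldS (pos : Bool) (p : ℕ) (z : ℕ → ℕ) (d M : ℕ) (T : Tr) (A S t : ℕ)
    (K : Tr → ℕ → ℕ → ℕ → Bool) : Bool :=
  force d fun m => force (Nat.add t m) fun t' =>
    addM p z pos m M T A S fun T' A' S' => K T' A' S' t'

/-- insert one member -/
noncomputable def bldM (co p : ℕ) (z : ℕ → ℕ) (k mem : ℕ) (T : Tr) (A S t : ℕ)
    (K : Tr → ℕ → ℕ → ℕ → Bool) : Bool :=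
  force (mskF mem k 0) fun M => force (Nat.shiftRight mem (Nat.add (Nat.mul 6 k) 1)) fun c =>
    @Bool.rec (fun _ => Bool) (bldS false p z (Nat.sub co c) M T A S t K)
      (bldS true p z (Nat.sub c co) M T A S t K) (Nat.ble co c)

theorem bldM_spec (co p : ℕ) (z : ℕ → ℕ) (k mem : ℕ) (s : St) :
    ∃ s' : St, (∀ K : Tr → ℕ → ℕ → ℕ → Bool,
      bldM co p z k mem s.T s.A s.S s.t K = K s'.T s'.A s'.S s'.t) ∧
      Step p z [(lst mem k 0, (false, Nat.testBit mem (6 * k)),
        Int.subNatNat (Nat.shiftRight mem (Nat.add (Nat.mul 6 k) 1)) co)] s s' := by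
  obtain ⟨c, hc⟩ : ∃ c, c = Nat.shiftRight mem (Nat.add (Nat.mul 6 k) 1) := ⟨_, rfl⟩
  have hdec : (lst mem k 0, (false, Nat.testBit mem (6 * k)),
      Int.subNatNat (Nat.shiftRight mem (Nat.add (Nat.mul 6 k) 1)) co) =
      (lst mem k 0, (false, Nat.testBit mem (6 * k)), (c : ℤ) - co) := by
    rw [← hc, Int.subNatNat_eq_coe]
  have hu : ∀ K : Tr → ℕ → ℕ → ℕ → Bool, bldM co p z k mem s.T s.A s.S s.t K =
      sel (Nat.ble co c)
        (addM p z true (c - co) (mask (lst mem k 0)) s.T s.A s.S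
          fun T' A' S' => K T' A' S' (s.t + (c - co)))
        (addM p z false (co - c) (mask (lst mem k 0)) s.T s.A s.S
          fun T' A' S' => K T' A' S' (s.t + (co - c))) := by
    intro K
    unfold bldM bldS
    rw [force_eq, force_eq, mskF_eq, ← hc, force_eq, force_eq, force_eq, force_eq]
    rfl
  by_cases h : co ≤ c
  · have e1 : Nat.ble co c = true := by rw [Nat.ble_eq]; exact h
    obtain ⟨T', A', S', h1, h2⟩ := addM_spec p z true (c - co) (mask (lst mem k 0)) s.T s.A s.S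
    refine ⟨⟨T', A', S', s.t + (c - co)⟩, fun K => by rw [hu, e1, selT, h1], ?_⟩
    have hn : (-((c : ℤ) - co)).toNat = 0 := by omega
    have hp : ((c : ℤ) - co).toNat = c - co := by omega
    have ha : ((c : ℤ) - co).natAbs = c - co := by omega
    refine ⟨fun x => ?_, ?_⟩
    · have h3 := h2 x
      rw [hdec]
      simp only [vN, vP, List.map_cons, List.map_nil, List.sum_cons, List.sum_nil, hn, hp,
        add_zero]
      refine ⟨?_, ?_⟩
      · rw [h3.1]
        simp
      · rw [h3.2]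
        simp
    · rw [hdec]
      simp only [vT, List.map_cons, List.map_nil, List.sum_cons, List.sum_nil, ha, add_zero]
  · have e1 : Nat.ble co c = false := by rw [← Bool.not_eq_true, Nat.ble_eq]; exact h
    obtain ⟨T', A', S', h1, h2⟩ := addM_spec p z false (co - c) (mask (lst mem k 0)) s.T s.A s.S
    refine ⟨⟨T', A', S', s.t + (co - c)⟩, fun K => by rw [hu, e1, selF, h1], ?_⟩
    have hn : (-((c : ℤ) - co)).toNat = co - c := by omega
    have hp : ((c : ℤ) - co).toNat = 0 := by omega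
    have ha : ((c : ℤ) - co).natAbs = co - c := by omega
    refine ⟨fun x => ?_, ?_⟩
    · have h3 := h2 x
      rw [hdec]
      simp only [vN, vP, List.map_cons, List.map_nil, List.sum_cons, List.sum_nil, hn, hp,
        add_zero]
      refine ⟨?_, ?_⟩
      · rw [h3.1]
        simp
      · rw [h3.2]
        simp
    · rw [hdec]
      simp only [vT, List.map_cons, List.map_nil, List.sum_cons, List.sum_nil, ha, add_zero]

/-- insert the members of a class -/
noncomputable def bldMs (p : ℕ) (z : ℕ → ℕ) (k W f : ℕ) : ℕ → Tr → ℕ → ℕ → ℕ →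
    (Tr → ℕ → ℕ → ℕ → Bool) → Bool :=
  Nat.rec (motive := fun _ => ℕ → Tr → ℕ → ℕ → ℕ → (Tr → ℕ → ℕ → ℕ → Bool) → Bool)
    (fun _ T A S t K => K T A S t)
    (fun _ ih x T A S t K => force (Nat.mod x (Nat.shiftLeft 1 W)) fun mem =>
      force (Nat.shiftRight x W) fun x' => bldM cOff p z k mem T A S t fun T' A' S' t' =>
        ih x' T' A' S' t' K) f

theorem bldMs_spec (p : ℕ) (z : ℕ → ℕ) (k W : ℕ) : ∀ (f x : ℕ) (s : St),
    ∃ s' : St, (∀ K : Tr → ℕ → ℕ → ℕ → Bool,
      bldMs p z k W f x s.T s.A s.S s.t K = K s'.T s'.A s'.S s'.t) ∧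
      Step p z (decMs k W f x) s s'
  | 0, x, s => ⟨s, fun K => rfl, Step.nil p z s⟩
  | f + 1, x, s => by
    obtain ⟨s1, h1, h2⟩ := bldM_spec cOff p z k (Nat.mod x (Nat.shiftLeft 1 W)) s
    obtain ⟨s2, h3, h4⟩ := bldMs_spec p z k W f (Nat.shiftRight x W) s1
    refine ⟨s2, fun K => ?_, h2.append h4⟩
    show force (Nat.mod x (Nat.shiftLeft 1 W)) (fun mem =>
      force (Nat.shiftRight x W) fun x' => bldM cOff p z k mem s.T s.A s.S s.t fun T' A' S' t' =>
        bldMs p z k W f x' T' A' S' t' K) = _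
    rw [force_eq, force_eq, h1, h3]

/-- insert the classes -/
noncomputable def bld (p : ℕ) (z : ℕ → ℕ) (lits : List ℕ) : Tr → ℕ → ℕ → ℕ →
    (Tr → ℕ → ℕ → ℕ → Bool) → Bool :=
  List.rec (motive := fun _ => Tr → ℕ → ℕ → ℕ → (Tr → ℕ → ℕ → ℕ → Bool) → Bool)
    (fun T A S t K => K T A S t)
    (fun x _ ih T A S t K => force (Nat.mod x 8) fun k =>
      force (Nat.mod (Nat.shiftRight x 3) 8192) fun f =>
        bldMs p z k (Nat.add (Nat.mul 6 k) 41) f (Nat.shiftRight x (Nat.add (Nat.mul 6 k) 16))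
          T A S t fun T' A' S' t' => ih T' A' S' t' K) lits

theorem bld_spec (p : ℕ) (z : ℕ → ℕ) : ∀ (lits : List ℕ) (s : St),
    ∃ s' : St, (∀ K : Tr → ℕ → ℕ → ℕ → Bool,
      bld p z lits s.T s.A s.S s.t K = K s'.T s'.A s'.S s'.t) ∧
      Step p z ((lits.map decCls).flatMap fun cl => cl.2) s s'
  | [], s => ⟨s, fun K => rfl, Step.nil p z s⟩
  | x :: lits, s => by
    obtain ⟨s1, h1, h2⟩ := bldMs_spec p z (Nat.mod x 8) (Nat.add (Nat.mul 6 (Nat.mod x 8)) 41)
      (Nat.mod (Nat.shiftRight x 3) 8192)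
      (Nat.shiftRight x (Nat.add (Nat.mul 6 (Nat.mod x 8)) 16)) s
    obtain ⟨s2, h3, h4⟩ := bld_spec p z lits s1
    refine ⟨s2, fun K => ?_, ?_⟩
    · show force (Nat.mod x 8) (fun k => force (Nat.mod (Nat.shiftRight x 3) 8192) fun f =>
        bldMs p z k (Nat.add (Nat.mul 6 k) 41) f (Nat.shiftRight x (Nat.add (Nat.mul 6 k) 16))
          s.T s.A s.S s.t fun T' A' S' t' => bld p z lits T' A' S' t' K) = _
      rw [force_eq, force_eq, h1, h3]
    · rw [List.map_cons, List.flatMap_cons]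
      exact h2.append h4

end Pool.Agent.H39Chif
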