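import Pool.Agent.Helper39_Chif.Build

/-!
# The check of the inequality for all independent sets
-/

set_option autoImplicit false

namespace Pool.Agent.H39Chif

open Pool.Agent.H18FC (decCls decMs decMem lst fld cOff Cls)

/-! ### Packed predicates -/

/-- packed number of a predicate, for one block -/
noncomputable def pkO (b : ℕ) (f : ℕ → Bool) (l : List ℕ) : ℕ :=
  List.rec (motive := fun _ => ℕ) 0
    (fun K _ ih => @Bool.rec (fun _ => ℕ) (Nat.shiftLeft ih b)
      (Nat.add (Nat.shiftLeft ih b) 1) (f K)) l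

/-- packed number of a predicate, for a list of blocks -/
noncomputable def pkB (b : ℕ) (f : ℕ → Bool) (ll : List (List ℕ)) : ℕ :=
  List.rec (motive := fun _ => ℕ) 0
    (fun l _ ih => Nat.add (pkO b f l) (Nat.shiftLeft ih (Nat.mul b (List.length l)))) ll

theorem pk_append (b : ℕ) (h : ℕ → ℕ) (l l' : List ℕ) :
    pk b h (l ++ l') = pk b h l + 2 ^ (b * l.length) * pk b h l' := by
  induction l with
  | nil => simp [pk]
  | cons K l ih =>
    rw [List.cons_append]
    simp only [pk, ih, List.length_cons]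
    rw [Nat.mul_succ, pow_add]
    ring

theorem pkO_eq (b : ℕ) (f : ℕ → Bool) (l : List ℕ) :
    pkO b f l = pk b (fun K => (f K).toNat) l := by
  induction l with
  | nil => rfl
  | cons K l ih =>
    have h0 : ∀ c : Bool, @Bool.rec (fun _ => ℕ) (Nat.shiftLeft (pkO b f l) b)
        (Nat.add (Nat.shiftLeft (pkO b f l) b) 1) c =
        c.toNat + 2 ^ b * pk b (fun K => (f K).toNat) l := by
      intro c
      have h : Nat.shiftLeft (pkO b f l) b = 2 ^ b * pkO b f l := by
        show pkO b f l <<< b = _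
        rw [Nat.shiftLeft_eq, mul_comm]
      rw [h, ih]
      cases c with
      | false => simp
      | true =>
        show 2 ^ b * pk b (fun K => (f K).toNat) l + 1 =
          1 + 2 ^ b * pk b (fun K => (f K).toNat) l
        rw [add_comm]
    exact h0 (f K)

theorem pkB_eq (b : ℕ) (f : ℕ → Bool) (ll : List (List ℕ)) :
    pkB b f ll = pk b (fun K => (f K).toNat) ll.flatten := by
  induction ll with
  | nil => rfl
  | cons l ll ih =>
    show pkO b f l + Nat.shiftLeft (pkB b f ll) (b * l.length) = _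
    have h : Nat.shiftLeft (pkB b f ll) (b * l.length) = 2 ^ (b * l.length) * pkB b f ll := by
      show pkB b f ll <<< (b * l.length) = _
      rw [Nat.shiftLeft_eq, mul_comm]
    rw [h, ih, pkO_eq, List.flatten_cons, pk_append]

/-- a bit -/
def tb (K j : ℕ) : Bool := Nat.beq (Nat.mod (Nat.shiftRight K j) 2) 1

theorem tb_eq (K j : ℕ) : tb K j = K.testBit j := by
  rw [Nat.testBit_eq_decide_div_mod_eq]
  have h : Nat.mod (Nat.shiftRight K j) 2 = K / 2 ^ j % 2 := by
    show (K >>> j) % 2 = _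
    rw [Nat.shiftRight_eq_div_pow]
  unfold tb
  rw [h]
  by_cases h1 : K / 2 ^ j % 2 = 1
  · rw [h1]
    rfl
  · rw [decide_eq_false h1, ← Bool.not_eq_true, Nat.beq_eq]
    exact h1

/-- the packed bits -/
noncomputable def mkZ (b : ℕ) (ll : List (List ℕ)) (t : ℕ) : List ℕ → (List ℕ → Bool) → Bool :=
  Nat.rec (motive := fun _ => List ℕ → (List ℕ → Bool) → Bool) (fun acc K => K acc)
    (fun j ih acc K => force (pkB b (fun K' => tb K' j) ll) fun Z => ih (Z :: acc) K) t

/-- the packed bit number `j` -/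
def Zf (b : ℕ) (ll : List (List ℕ)) (j : ℕ) : ℕ :=
  pk b (fun K => (K.testBit j).toNat) ll.flatten

theorem mkZ_eq (b : ℕ) (ll : List (List ℕ)) : ∀ (t : ℕ) (acc : List ℕ) (K : List ℕ → Bool),
    mkZ b ll t acc K = K ((List.range t).map (Zf b ll) ++ acc)
  | 0, acc, K => rfl
  | t + 1, acc, K => by
    show force (pkB b (fun K' => tb K' t) ll) (fun Z => mkZ b ll t (Z :: acc) K) = _
    rw [force_eq, mkZ_eq b ll t]
    have h : pkB b (fun K' => tb K' t) ll = Zf b ll t := by
      rw [pkB_eq]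
      unfold Zf
      exact pk_congr b fun K _ => by rw [tb_eq]
    rw [h, List.range_succ, List.map_append, List.append_assoc]
    rfl

/-- the packed indicator of the sets containing `A` -/
noncomputable def zA (ones : ℕ) (zs : List ℕ) : ℕ → ℕ :=
  List.rec (motive := fun _ => ℕ → ℕ) (fun _ => ones)
    (fun Z _ ih A => @Bool.rec (fun _ => ℕ) (Nat.land Z (ih (Nat.div A 2)))
      (ih (Nat.div A 2)) (Nat.beq (Nat.mod A 2) 0)) zs

theorem zA_eq {b : ℕ} (hb : 0 < b) (ll : List (List ℕ)) : ∀ (m j A : ℕ), A < 2 ^ m →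
    zA (pk b (fun _ => 1) ll.flatten) ((List.range' j m).map (Zf b ll)) A =
      pk b (fun K => if sb A (K / 2 ^ j) then 1 else 0) ll.flatten
  | 0, j, A, hA => by
    have : A = 0 := by simpa using hA
    subst this
    show pk b (fun _ => 1) ll.flatten = _
    exact pk_congr b fun K _ => by rw [if_pos (sb_zero _)]
  | m + 1, j, A, hA => by
    have hA2 : A / 2 < 2 ^ m := by
      rw [pow_succ] at hA
      omega
    have ih := zA_eq hb ll m (j + 1) (A / 2) hA2
    have e : zA (pk b (fun _ => 1) ll.flatten) ((List.range' j (m + 1)).map (Zf b ll)) A =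
        cond (Nat.beq (Nat.mod A 2) 0)
          (zA (pk b (fun _ => 1) ll.flatten) ((List.range' (j + 1) m).map (Zf b ll)) (A / 2))
          (Nat.land (Zf b ll j) (zA (pk b (fun _ => 1) ll.flatten)
            ((List.range' (j + 1) m).map (Zf b ll)) (A / 2))) := by
      rw [List.range'_succ]
      have h0 : ∀ (c : Bool) (a b : ℕ), @Bool.rec (fun _ => ℕ) b a c = cond c a b := by
        intro c a b
        cases c <;> rfl
      exact h0 _ _ _
    rw [e, ih]
    have hsplit : ∀ K, sb A (K / 2 ^ j) ↔ (A % 2 = 1 → K.testBit j = true) ∧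
        sb (A / 2) (K / 2 ^ (j + 1)) := by
      intro K
      rw [sb_split 1 (M := A), pow_one, Nat.div_div_eq_div_mul, ← pow_succ]
      refine and_congr_left fun _ => ?_
      rw [Nat.testBit_eq_decide_div_mod_eq, decide_eq_true_eq]
      unfold sb
      rcases Nat.mod_two_eq_zero_or_one A with h1 | h1
      · rw [h1]
        simp
      · rw [h1]
        rcases Nat.mod_two_eq_zero_or_one (K / 2 ^ j) with h2 | h2
        · rw [h2]
          simp
        · rw [h2]
          simp
    rcases Nat.mod_two_eq_zero_or_one A with h1 | h1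
    · have e1 : Nat.beq (Nat.mod A 2) 0 = true := by rw [Nat.beq_eq]; exact h1
      rw [e1, cond_true]
      refine pk_congr b fun K _ => ?_
      have h2 : sb A (K / 2 ^ j) ↔ sb (A / 2) (K / 2 ^ (j + 1)) := by
        rw [hsplit, h1]
        simp
      simp only [h2]
    · have e1 : Nat.beq (Nat.mod A 2) 0 = false := by
        rw [← Bool.not_eq_true, Nat.beq_eq]
        show ¬ A % 2 = 0
        omega
      rw [e1, cond_false]
      show pk b _ _ &&& pk b _ _ = _
      have h1b : 1 < 2 ^ b := Nat.one_lt_two_pow hb.ne'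
      rw [pk_land b (fun K _ => by
        cases K.testBit j <;> simp [h1b]) (fun K _ => by
        split_ifs <;> omega)]
      refine pk_congr b fun K _ => ?_
      have h2 : sb A (K / 2 ^ j) ↔ K.testBit j = true ∧ sb (A / 2) (K / 2 ^ (j + 1)) := by
        rw [hsplit, h1]
        simp
      simp only [h2]
      by_cases h3 : K.testBit j = true
      · by_cases h4 : sb (A / 2) (K / 2 ^ (j + 1)) <;> simp [h3, h4]
      · have h5 : K.testBit j = false := by simpa using h3
        by_cases h4 : sb (A / 2) (K / 2 ^ (j + 1)) <;> simp [h5, h4]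

/-- the packed indicator with a fingerprint in the low part -/
noncomputable def zS (c ones : ℕ) (zs : List ℕ) (A : ℕ) : ℕ :=
  Nat.add (Nat.succ A) (Nat.shiftLeft (zA ones zs A) c)

theorem zS_eq (c ones : ℕ) (zs : List ℕ) (A : ℕ) :
    zS c ones zs A = (A + 1) + 2 ^ c * zA ones zs A := by
  show (A + 1) + (zA ones zs A <<< c) = _
  rw [Nat.shiftLeft_eq, mul_comm (zA ones zs A)]

/-! ### The levels -/

/-- the data of the levels, in reverse order -/
noncomputable def mkI (b c p : ℕ) (ll : List (List ℕ)) (adjs : List ℕ) : ℕ →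
    List (ℕ × ℕ × ℕ) → (List (ℕ × ℕ × ℕ) → Bool) → Bool :=
  List.rec (motive := fun _ => ℕ → List (ℕ × ℕ × ℕ) → (List (ℕ × ℕ × ℕ) → Bool) → Bool)
    (fun _ acc K => K acc)
    (fun adj _ ih bit acc K =>
      force (Nat.add (Nat.sub (Nat.pow 2 c) 1) (Nat.shiftLeft
        (pkB b (fun K' => Nat.beq (Nat.land K' (Nat.shiftRight adj p)) 0) ll) c)) fun nv =>
        force (Nat.mod adj (Nat.pow 2 p)) fun a => force (Nat.add bit bit) fun bit' =>
          ih bit' ((bit, a, nv) :: acc) K) adjs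

/-- the data of the levels -/
def infs (b c p : ℕ) (ll : List (List ℕ)) : List ℕ → ℕ → List (ℕ × ℕ × ℕ)
  | [], _ => []
  | adj :: l, bit => (bit, adj % 2 ^ p,
      (2 ^ c - 1) + 2 ^ c * pk b (fun K => (decide (K &&& (adj / 2 ^ p) = 0)).toNat) ll.flatten) ::
      infs b c p ll l (bit + bit)

theorem infs_length (b c p : ℕ) (ll : List (List ℕ)) : ∀ (l : List ℕ) (bit : ℕ),
    (infs b c p ll l bit).length = l.length
  | [], _ => rfl
  | adj :: l, bit => by rw [infs, List.length_cons, List.length_cons, infs_length b c p ll l]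

theorem mkI_eq (b c p : ℕ) (ll : List (List ℕ)) : ∀ (adjs : List ℕ) (bit : ℕ)
    (acc : List (ℕ × ℕ × ℕ)) (K : List (ℕ × ℕ × ℕ) → Bool),
    mkI b c p ll adjs bit acc K = K ((infs b c p ll adjs bit).reverse ++ acc)
  | [], _, acc, K => rfl
  | adj :: l, bit, acc, K => by
    show force ((2 ^ c - 1) + (pkB b (fun K' => Nat.beq (Nat.land K' (Nat.shiftRight adj p)) 0)
        ll <<< c)) (fun nv =>
        force (adj % 2 ^ p) fun a => force (bit + bit) fun bit' =>
          mkI b c p ll l bit' ((bit, a, nv) :: acc) K) = _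
    rw [force_eq, force_eq, force_eq, mkI_eq b c p ll l]
    have h : pkB b (fun K' => Nat.beq (Nat.land K' (Nat.shiftRight adj p)) 0) ll =
        pk b (fun K => (decide (K &&& (adj / 2 ^ p) = 0)).toNat) ll.flatten := by
      rw [pkB_eq]
      refine pk_congr b fun K _ => ?_
      have h1 : Nat.land K (Nat.shiftRight adj p) = K &&& (adj / 2 ^ p) := by
        show K &&& (adj >>> p) = _
        rw [Nat.shiftRight_eq_div_pow]
      rw [h1]
      congr 1
      by_cases h2 : K &&& (adj / 2 ^ p) = 0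
      · rw [h2]
        rfl
      · rw [decide_eq_false h2, ← Bool.not_eq_true, Nat.beq_eq]
        exact h2
    rw [h, infs, List.reverse_cons, List.append_assoc, Nat.shiftLeft_eq,
      mul_comm _ (2 ^ c)]
    rfl

/-- the data of the levels -/
def info : Lv → List (ℕ × ℕ × ℕ)
  | .nil => []
  | .cons bit adj nv _ _ _ tl => (bit, adj, nv) :: info tl

/-- the tree as a list of levels -/
noncomputable def conv (is : List (ℕ × ℕ × ℕ)) : Tr → Lv → (Lv → Bool) → Bool :=
  List.rec (motive := fun _ => Tr → Lv → (Lv → Bool) → Bool)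
    (fun T acc K => Tr.rec (motive := fun _ => Bool) (K acc) (fun _ _ _ _ _ _ _ => false) T)
    (fun i _ ih T acc K => Tr.rec (motive := fun _ => Bool)
      (ih Tr.nil (Lv.cons i.1 i.2.1 i.2.2 0 0 Tr.nil acc) K)
      (fun e a s kd sbs _ _ => @Bool.rec (fun _ => Bool)
        (ih (Tr.cons e a s kd sbs) (Lv.cons i.1 i.2.1 i.2.2 0 0 Tr.nil acc) K)
        (ih sbs (Lv.cons i.1 i.2.1 i.2.2 a s kd acc) K) (Nat.beq e i.1)) T) is

theorem conv_spec : ∀ (is : List (ℕ × ℕ × ℕ)) (T : Tr) (acc : Lv) (K : Lv → Bool),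
    conv is T acc K = true → ∃ L, K L = true ∧
      (∀ x, lA L x = lA acc x + tA T x ∧ lS L x = lS acc x + tS T x) ∧
      info L = is.reverse ++ info acc
  | [], .nil, acc, K, h => ⟨acc, h, fun x => ⟨rfl, rfl⟩, rfl⟩
  | [], .cons _ _ _ _ _, acc, K, h => by
    exact absurd (show false = true from h) (by simp)
  | i :: is, .nil, acc, K, h => by
    have h' : conv is Tr.nil (Lv.cons i.1 i.2.1 i.2.2 0 0 Tr.nil acc) K = true := h
    obtain ⟨L, h1, h2, h3⟩ := conv_spec is _ _ _ h'
    refine ⟨L, h1, fun x => ?_, ?_⟩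
    · rw [(h2 x).1, (h2 x).2]
      simp only [lA, lS, tA, tS]
      simp
    · rw [h3, List.reverse_cons, List.append_assoc]
      rfl
  | i :: is, .cons e a s kd sbs, acc, K, h => by
    have h' : sel (Nat.beq e i.1) (conv is sbs (Lv.cons i.1 i.2.1 i.2.2 a s kd acc) K)
        (conv is (Tr.cons e a s kd sbs) (Lv.cons i.1 i.2.1 i.2.2 0 0 Tr.nil acc) K) = true := h
    by_cases he : e = i.1
    · have e1 : Nat.beq e i.1 = true := by rw [Nat.beq_eq]; exact he
      rw [e1, selT] at h'
      obtain ⟨L, h1, h2, h3⟩ := conv_spec is _ _ _ h'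
      refine ⟨L, h1, fun x => ?_, ?_⟩
      · rw [(h2 x).1, (h2 x).2]
        simp only [lA, lS, tA, tS, ← he]
        constructor <;> omega
      · rw [h3, List.reverse_cons, List.append_assoc]
        rfl
    · have e1 : Nat.beq e i.1 = false := by rw [← Bool.not_eq_true, Nat.beq_eq]; exact he
      rw [e1, selF] at h'
      obtain ⟨L, h1, h2, h3⟩ := conv_spec is _ _ _ h'
      refine ⟨L, h1, fun x => ?_, ?_⟩
      · rw [(h2 x).1, (h2 x).2]
        simp only [lA, lS, tA, tS]
        simp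
      · rw [h3, List.reverse_cons, List.append_assoc]
        rfl

/-- `x` is independent with respect to the data -/
theorem lInd_of {c : ℕ} : ∀ {L : Lv} {x : ℕ}, (∀ i ∈ info L,
    (sb i.1 x → i.2.1 &&& (x % i.1) = 0) ∧ i.2.1 < 2 ^ c ∧ i.2.2 % 2 ^ c = 2 ^ c - 1) →
    lInd c L x
  | .nil, _, _ => trivial
  | .cons bit adj nv _ _ _ _, _, h =>
    ⟨h (bit, adj, nv) List.mem_cons_self, lInd_of fun i hi => h i (List.mem_cons_of_mem _ hi)⟩

theorem info_length : ∀ L : Lv, (info L).length = lLen L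
  | .nil => rfl
  | .cons _ _ _ _ _ _ tl => by rw [info, List.length_cons, info_length tl, lLen]

theorem land_eq_zero_of_sb {a x y : ℕ} (h : a &&& x = 0) (hy : sb y x) : a &&& y = 0 := by
  apply Nat.eq_of_testBit_eq
  intro i
  rw [Nat.testBit_land, Nat.zero_testBit]
  cases h1 : y.testBit i with
  | false => rw [Bool.and_false]
  | true =>
    have h2 := sb_iff.1 hy i h1
    have h3 := congrArg (fun z => Nat.testBit z i) h
    simp only [Nat.testBit_land, h2, Bool.and_true, Nat.zero_testBit] at h3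
    rw [h3, Bool.false_and]

theorem sb_mod_self (x v : ℕ) : sb (x % 2 ^ v) x := by
  rw [sb_iff]
  intro i hi
  rw [Nat.testBit_mod_two_pow, Bool.and_eq_true] at hi
  exact hi.2

/-- independence for the data of the levels -/
theorem infs_ind {b c p : ℕ} (hpc : p ≤ c) {ll : List (List ℕ)} {y : ℕ} :
    ∀ (adjs : List ℕ) (v : ℕ),
    (∀ j (hj : j < adjs.length), y.testBit (v + j) = true → adjs[j] &&& y = 0) →
    ∀ i ∈ infs b c p ll adjs (2 ^ v), (sb i.1 y → i.2.1 &&& (y % i.1) = 0) ∧ i.2.1 < 2 ^ c ∧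
      i.2.2 % 2 ^ c = 2 ^ c - 1
  | [], v, _, i, hi => by simp [infs] at hi
  | adj :: l, v, h, i, hi => by
    rw [infs, List.mem_cons] at hi
    rcases hi with rfl | hi
    · have hc1 : 1 ≤ 2 ^ c := Nat.one_le_two_pow
      refine ⟨?_, lt_of_lt_of_le (Nat.mod_lt _ (by positivity))
        (Nat.pow_le_pow_right (by norm_num) hpc), ?_⟩
      swap
      · show ((2 ^ c - 1) + 2 ^ c * _) % 2 ^ c = _
        rw [Nat.add_mul_mod_self_left, Nat.mod_eq_of_lt (by omega)]
      intro h1
      have h2 := h 0 (by simp) (by rw [add_zero]; exact sb_two_pow.1 h1)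
      have h3 : adj &&& y = 0 := h2
      have h4 : adj &&& (y % 2 ^ v) = 0 := land_eq_zero_of_sb h3 (sb_mod_self y v)
      show adj % 2 ^ p &&& y % 2 ^ v = 0
      rw [Nat.and_comm] at h4 ⊢
      exact land_eq_zero_of_sb h4 (sb_mod_self adj p)
    · have e : 2 ^ v + 2 ^ v = 2 ^ (v + 1) := by rw [pow_succ]; ring
      rw [e] at hi
      refine infs_ind hpc l (v + 1) (fun j hj hy => ?_) i hi
      have := h (j + 1) (by simpa using hj) (by
        rw [show v + (j + 1) = v + 1 + j by ring]; exact hy)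
      simpa using this

/-- the vertices of the suffix which are not adjacent to the chosen vertices -/
theorem lV_spec {b c p : ℕ} (hb : 0 < b) {ll : List (List ℕ)} {x : ℕ} :
    ∀ (L : Lv) (adjs : List ℕ) (v : ℕ) (u : ℕ → ℕ), info L = infs b c p ll adjs (2 ^ v) →
    (∀ K, u K ≤ 1) → ∃ u' : ℕ → ℕ, lV c L x (pk b u ll.flatten) = pk b u' ll.flatten ∧
      (∀ K, u' K ≤ 1) ∧ ∀ K, u K = 1 →
        (∀ j (hj : j < adjs.length), x.testBit (v + j) = true → K &&& (adjs[j] / 2 ^ p) = 0) →
        u' K = 1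
  | .nil, adjs, v, u, hi, hu => ⟨u, rfl, hu, fun K hK _ => hK⟩
  | .cons bit adj nv a s kd tl, [], v, u, hi, hu => by simp [info, infs] at hi
  | .cons bit adj nv a s kd tl, adj' :: l, v, u, hi, hu => by
    have e : 2 ^ v + 2 ^ v = 2 ^ (v + 1) := by rw [pow_succ]; ring
    rw [info, infs, List.cons.injEq, e] at hi
    obtain ⟨h1, h2⟩ := hi
    have hbit : bit = 2 ^ v := congrArg Prod.fst h1
    have hnv : nv / 2 ^ c =
        pk b (fun K => (decide (K &&& (adj' / 2 ^ p) = 0)).toNat) ll.flatten := by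
      have h9 : nv = (2 ^ c - 1) + 2 ^ c *
          pk b (fun K => (decide (K &&& (adj' / 2 ^ p) = 0)).toNat) ll.flatten :=
        congrArg (fun z => z.2.2) h1
      have hc1 : 1 ≤ 2 ^ c := Nat.one_le_two_pow
      rw [h9, Nat.add_mul_div_left _ _ (by positivity), Nat.div_eq_of_lt (by omega), zero_add]
    have h1b : 1 < 2 ^ b := Nat.one_lt_two_pow hb.ne'
    by_cases hx : sb bit x
    · have e1 : pk b u ll.flatten &&& (nv / 2 ^ c) =
          pk b (fun K => u K &&& (decide (K &&& (adj' / 2 ^ p) = 0)).toNat) ll.flatten := by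
        rw [hnv]
        refine pk_land b (fun K _ => lt_of_le_of_lt (hu K) h1b) (fun K _ => ?_)
        cases decide (K &&& (adj' / 2 ^ p) = 0) <;> simp [h1b]
      obtain ⟨u', h3, h4, h5⟩ := lV_spec hb tl l (v + 1)
        (fun K => u K &&& (decide (K &&& (adj' / 2 ^ p) = 0)).toNat) h2
        (fun K => le_trans Nat.and_le_left (hu K))
      refine ⟨u', ?_, h4, fun K hK hj => h5 K ?_ fun j hj' hx' => ?_⟩
      · simp only [lV, if_pos hx]
        rw [e1, h3]
      · have h6 := hj 0 (by simp) (by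
          rw [add_zero]
          rw [hbit] at hx
          exact sb_two_pow.1 hx)
        have h7 : K &&& (adj' / 2 ^ p) = 0 := h6
        show u K &&& (decide (K &&& (adj' / 2 ^ p) = 0)).toNat = 1
        rw [decide_eq_true h7, hK]
        rfl
      · have := hj (j + 1) (by simpa using hj') (by
          rw [show v + (j + 1) = v + 1 + j by ring]; exact hx')
        simpa using this
    · obtain ⟨u', h3, h4, h5⟩ := lV_spec hb tl l (v + 1) u h2 hu
      refine ⟨u', ?_, h4, fun K hK hj => h5 K hK fun j hj' hx' => ?_⟩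
      · simp only [lV, if_neg hx]
        exact h3
      · have := hj (j + 1) (by simpa using hj') (by
          rw [show v + (j + 1) = v + 1 + j by ring]; exact hx')
        simpa using this

/-! ### The check -/

/-- the comparison at the leaves -/
noncomputable def leaf (c e CC A S V : ℕ) : Bool :=
  @Bool.rec (fun _ => Bool) false
    (Nat.beq (Nat.land (Nat.sub (Nat.add CC A) S) (Nat.shiftLeft (Nat.shiftRight V c) e))
      (Nat.shiftLeft (Nat.shiftRight V c) e)) (Nat.ble S (Nat.add CC A))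

theorem leaf_eq (c e CC A S V : ℕ) : leaf c e CC A S V =
    (Nat.ble S (CC + A) && Nat.beq ((CC + A - S) &&& ((V >>> c) <<< e)) ((V >>> c) <<< e)) := by
  rw [← sel_and]
  rfl

theorem leaf_sound' {b c D : ℕ} (hb : 0 < b) (hc : 0 < c) {pos neg v : ℕ → ℕ} {Ks : List ℕ}
    (hv : ∀ K ∈ Ks, v K ≤ 1) (tot : ℕ) (hpos : ∀ K ∈ Ks, pos K ≤ tot)
    (hneg : ∀ K ∈ Ks, neg K ≤ tot) (htot : tot + D < 2 ^ (b - 1)) {a0 s0 J : ℕ}
    (ha0 : a0 < 2 ^ (c - 1)) (hs0 : s0 < 2 ^ (c - 1)) (hJ : J < 2 ^ c)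
    (h : leaf c (c + (b - 1)) (2 ^ (c - 1) + 2 ^ c * pk b (fun _ => 2 ^ (b - 1) + D) Ks)
      (a0 + 2 ^ c * pk b neg Ks) (s0 + 2 ^ c * pk b pos Ks) (J + 2 ^ c * pk b v Ks) = true) :
    ∀ K ∈ Ks, v K = 1 → pos K ≤ D + neg K := by
  have hpow : 2 ^ c = 2 ^ (c - 1) + 2 ^ (c - 1) := by
    conv_lhs => rw [← Nat.sub_add_cancel hc]
    rw [pow_succ]
    ring
  refine leaf_sound hb hv tot hpos hneg htot ?_
  rw [leaf_eq, Bool.and_eq_true, Nat.beq_eq] at h
  have h2 := h.2
  have e1 : ((J + 2 ^ c * pk b v Ks) >>> c) <<< (c + (b - 1)) =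
      0 + 2 ^ c * (pk b v Ks * 2 ^ (b - 1)) := by
    rw [Nat.shiftRight_eq_div_pow, Nat.add_mul_div_left _ _ (by positivity),
      Nat.div_eq_of_lt hJ, zero_add, zero_add, Nat.shiftLeft_eq, pow_add]
    ring
  have hle : pk b pos Ks ≤ pk b (fun _ => 2 ^ (b - 1) + D) Ks + pk b neg Ks := by
    rw [pk_add]
    refine pk_le b fun K hK => ?_
    have := hpos K hK
    omega
  obtain ⟨d, hd⟩ := Nat.exists_eq_add_of_le hle
  have e2 : 2 ^ (c - 1) + 2 ^ c * pk b (fun _ => 2 ^ (b - 1) + D) Ks +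
      (a0 + 2 ^ c * pk b neg Ks) - (s0 + 2 ^ c * pk b pos Ks) =
      (2 ^ (c - 1) + a0 - s0) + 2 ^ c *
        (pk b (fun _ => 2 ^ (b - 1) + D) Ks + pk b neg Ks - pk b pos Ks) := by
    apply Nat.sub_eq_of_eq_add
    have h3 : 2 ^ c * (pk b (fun _ => 2 ^ (b - 1) + D) Ks + pk b neg Ks) =
        2 ^ c * (pk b pos Ks + d) := by rw [hd]
    have h4 : pk b (fun _ => 2 ^ (b - 1) + D) Ks + pk b neg Ks - pk b pos Ks = d := by omega
    rw [h4]
    rw [Nat.mul_add, Nat.mul_add] at h3
    omega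
  rw [e1, e2, land_pack (by omega) (by positivity), Nat.and_zero, zero_add, zero_add] at h2
  exact Nat.eq_of_mul_eq_mul_left (by positivity) h2

/-- the conditions on the sizes -/
noncomputable def okC (b c p t D n tot : ℕ) : Bool :=
  @Bool.rec (fun _ => Bool) false
    (@Bool.rec (fun _ => Bool) false
      (@Bool.rec (fun _ => Bool) false
        (@Bool.rec (fun _ => Bool) false (Nat.ble n c) (Nat.ble p c))
        (Nat.blt 0 c))
      (Nat.blt (Nat.mul tot (Nat.pow 2 t)) (Nat.pow 2 (Nat.sub c 1))))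
    (Nat.blt (Nat.add tot D) (Nat.pow 2 (Nat.sub b 1)))

theorem okC_spec {b c p t D n tot : ℕ} (h : okC b c p t D n tot = true) :
    tot + D < 2 ^ (b - 1) ∧ tot * 2 ^ t < 2 ^ (c - 1) ∧ 0 < c ∧ p ≤ c ∧ n ≤ c := by
  have h' : (Nat.blt (tot + D) (2 ^ (b - 1)) && (Nat.blt (tot * 2 ^ t) (2 ^ (c - 1)) &&
      (Nat.blt 0 c && (Nat.ble p c && Nat.ble n c)))) = true := by
    rw [← sel_and, ← sel_and, ← sel_and, ← sel_and]
    exact h
  rw [Bool.and_eq_true, Bool.and_eq_true, Bool.and_eq_true, Bool.and_eq_true, Nat.blt_eq,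
    Nat.blt_eq, Nat.blt_eq, Nat.ble_eq, Nat.ble_eq] at h'
  exact h'

/-- the check -/
noncomputable def chk (b c p t D : ℕ) (adjs : List ℕ) (ll : List (List ℕ)) (lits : List ℕ)
    (fz fo : ℕ) : Bool :=
  force (pkB b (fun _ => true) ll) fun ones => mkZ b ll t [] fun zs =>
    mkI b c p ll adjs 1 [] fun is =>
      bld p (zS c ones zs) lits Tr.nil 0 0 0 fun T A S tot =>
        @Bool.rec (fun _ => Bool) false
          (conv is T Lv.nil fun L => @Bool.rec (fun _ => Bool) false
            (force (Nat.add (Nat.pow 2 (Nat.sub c 1)) (Nat.shiftLeft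
              (Nat.mul (Nat.add (Nat.pow 2 (Nat.sub b 1)) D) ones) c)) fun CC =>
                force (Nat.add c (Nat.sub b 1)) fun e =>
                  force (Nat.shiftLeft ones c) fun V => go fz fo (leaf c e CC) L A S V)
            (okL L 0))
          (okC b c p t D (List.length adjs) tot)

/-- positive part of the value of the certificate -/
def fP (l : List Mb) (x : ℕ) : ℕ := (l.map fun m => if sb (mask m.1) x then m.2.2.toNat else 0).sum

/-- negative part of the value of the certificate -/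
def fN (l : List Mb) (x : ℕ) : ℕ :=
  (l.map fun m => if sb (mask m.1) x then (-m.2.2).toNat else 0).sum

theorem pk_sum {b c p : ℕ} (z : ℕ → ℕ) {Ks : List ℕ} {y : ℕ} (g : Mb → ℕ) : ∀ (l : List Mb),
    (∀ m ∈ l, z (mask m.1 / 2 ^ p) = (mask m.1 / 2 ^ p + 1) +
      2 ^ c * pk b (fun K => if sb (mask m.1 / 2 ^ p) K then 1 else 0) Ks) →
    (l.map fun m => if sb (mask m.1 % 2 ^ p) y then g m * z (mask m.1 / 2 ^ p) else 0).sum =
      (l.map fun m => if sb (mask m.1 % 2 ^ p) y then g m * (mask m.1 / 2 ^ p + 1) else 0).sum +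
      2 ^ c * pk b (fun K => (l.map fun m => if sb (mask m.1 % 2 ^ p) y ∧ sb (mask m.1 / 2 ^ p) K
        then g m else 0).sum) Ks
  | [], _ => by
    show 0 = 0 + 2 ^ c * pk b (fun _ => 0) Ks
    rw [pk_zero b Ks]
    simp
  | m :: l, h => by
    rw [List.map_cons, List.sum_cons, pk_sum z g l fun m' hm' => h m' (List.mem_cons_of_mem _ hm')]
    simp only [List.map_cons, List.sum_cons]
    rw [← pk_add]
    by_cases h1 : sb (mask m.1 % 2 ^ p) y
    · have h3 : pk b (fun K => if sb (mask m.1 % 2 ^ p) y ∧ sb (mask m.1 / 2 ^ p) K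
          then g m else 0) Ks =
          g m * pk b (fun K => if sb (mask m.1 / 2 ^ p) K then 1 else 0) Ks := by
        rw [pk_mul]
        refine pk_congr b fun K _ => ?_
        by_cases h2 : sb (mask m.1 / 2 ^ p) K
        · rw [if_pos h2, if_pos ⟨h1, h2⟩, mul_one]
        · rw [if_neg h2, if_neg fun h3 => h2 h3.2, mul_zero]
      rw [h3, if_pos h1, if_pos h1, h m List.mem_cons_self]
      ring
    · have h3 : (fun K => if sb (mask m.1 % 2 ^ p) y ∧ sb (mask m.1 / 2 ^ p) K then g m else 0) =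
          fun _ => 0 := by
        funext K
        rw [if_neg fun h3 => h1 h3.1]
      rw [h3, if_neg h1, if_neg h1, pk_zero]
      ring

theorem sum_le_vT (Q : Mb → Prop) [DecidablePred Q] (g : Mb → ℕ)
    (hg : ∀ m, g m ≤ m.2.2.natAbs) : ∀ l : List Mb,
    (l.map fun m => if Q m then g m else 0).sum ≤ vT l
  | [] => le_rfl
  | m :: l => by
    have h1 := sum_le_vT Q g hg l
    have h2 := hg m
    unfold vT at h1 ⊢
    simp only [List.map_cons, List.sum_cons]
    split_ifs <;> omega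

theorem mask_lt {l : List ℕ} {n : ℕ} (h : ∀ v ∈ l, v < n) : mask l < 2 ^ n := by
  apply Nat.lt_pow_two_of_testBit
  intro i hi
  by_contra h1
  rw [Bool.not_eq_false, mask_testBit] at h1
  exact absurd (h i h1) (by omega)

theorem sum_low_le {p t : ℕ} {y : ℕ} (g : Mb → ℕ) (hg : ∀ m, g m ≤ m.2.2.natAbs) :
    ∀ l : List Mb, (∀ m ∈ l, mask m.1 / 2 ^ p < 2 ^ t) →
    (l.map fun m => if sb (mask m.1 % 2 ^ p) y then g m * (mask m.1 / 2 ^ p + 1) else 0).sum ≤
      vT l * 2 ^ t
  | [], _ => by simp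
  | m :: l, h => by
    have h1 := sum_low_le (y := y) g hg l fun m' hm' => h m' (List.mem_cons_of_mem _ hm')
    have h2 : g m * (mask m.1 / 2 ^ p + 1) ≤ m.2.2.natAbs * 2 ^ t :=
      Nat.mul_le_mul (hg m) (h m List.mem_cons_self)
    unfold vT at h1 ⊢
    simp only [List.map_cons, List.sum_cons, add_mul]
    split_ifs <;> omega

theorem chk_sound {b c p t D : ℕ} {adjs : List ℕ} {ll : List (List ℕ)} {lits : List ℕ}
    {fz fo : ℕ} (hb : 0 < b) (h : chk b c p t D adjs ll lits fz fo = true)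
    (hm : ∀ m ∈ (lits.map decCls).flatMap fun cl => cl.2, ∀ v ∈ m.1, v < p + t)
    {x : ℕ} (hadj : ∀ j (hj : j < adjs.length), x.testBit j = true → adjs[j] &&& x = 0)
    (hK : x / 2 ^ p ∈ ll.flatten) (hfz : (x % 2 ^ p) &&& fz = 0) (hfo : sb fo (x % 2 ^ p)) :
    fP ((lits.map decCls).flatMap fun cl => cl.2) x ≤
      D + fN ((lits.map decCls).flatMap fun cl => cl.2) x := by
  obtain ⟨ml, hml⟩ : ∃ ml, ml = (lits.map decCls).flatMap fun cl => cl.2 := ⟨_, rfl⟩
  rw [← hml] at hm ⊢
  obtain ⟨ones, hones⟩ : ∃ ones, ones = pk b (fun _ => 1) ll.flatten := ⟨_, rfl⟩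
  obtain ⟨z, hz⟩ : ∃ z, z = zS c ones ((List.range t).map (Zf b ll)) := ⟨_, rfl⟩
  have e0 : pkB b (fun _ => true) ll = ones := by
    rw [pkB_eq, hones]
    rfl
  obtain ⟨s', hs1, hs2⟩ := bld_spec p z lits ⟨Tr.nil, 0, 0, 0⟩
  rw [← hml] at hs2
  obtain ⟨is, his⟩ : ∃ is, is = (infs b c p ll adjs 1).reverse := ⟨_, rfl⟩
  have h' : (okC b c p t D adjs.length s'.t &&
      (conv is s'.T Lv.nil fun L => (sel (okL L 0)
        (go fz fo (leaf c (c + (b - 1)) (2 ^ (c - 1) + ((2 ^ (b - 1) + D) * ones) <<< c)) L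
          s'.A s'.S (ones <<< c)) false))) = true := by
    unfold chk at h
    rw [force_eq, mkZ_eq, mkI_eq, e0, List.append_nil, List.append_nil, ← hz, hs1] at h
    simp only [force_eq] at h
    rw [← his] at h
    rw [← sel_and]
    exact h
  rw [Bool.and_eq_true] at h'
  obtain ⟨hokC, hconv⟩ := h'
  obtain ⟨htot, htot2, hc, hpc, hnc⟩ := okC_spec hokC
  obtain ⟨L, hL1, hL2, hL3⟩ := conv_spec _ _ _ _ hconv
  rw [sel_and, Bool.and_eq_true] at hL1
  obtain ⟨hok, hgo⟩ := hL1
  have hinfo : info L = infs b c p ll adjs (2 ^ 0) := by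
    rw [hL3, his, List.reverse_reverse, pow_zero]
    show infs b c p ll adjs 1 ++ [] = _
    rw [List.append_nil]
  have hlen : 0 + lLen L ≤ c := by
    rw [zero_add, ← info_length, hinfo, infs_length]
    exact hnc
  obtain ⟨y, hy⟩ : ∃ y, y = x % 2 ^ p := ⟨_, rfl⟩
  rw [← hy] at hfz hfo
  have hyx : sb y x := by rw [hy]; exact sb_mod_self x p
  have hyt : ∀ j, y.testBit j = true → x.testBit j = true := sb_iff.1 hyx
  have hind : lInd c L y := by
    apply lInd_of
    rw [hinfo]
    refine infs_ind hpc adjs 0 fun j hj hyj => ?_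
    rw [zero_add] at hyj
    exact land_eq_zero_of_sb (hadj j hj (hyt j hyj)) hyx
  have hgo' : go fz fo (leaf c (c + (b - 1)) (2 ^ (c - 1) + ((2 ^ (b - 1) + D) * ones) <<< c)) L
      s'.A s'.S (y % 2 ^ 0 + 2 ^ c * ones) = true := by
    have h1 : y % 2 ^ 0 + 2 ^ c * ones = ones <<< c := by
      rw [pow_zero, Nat.mod_one, zero_add, Nat.shiftLeft_eq, mul_comm]
    rw [h1]
    exact hgo
  obtain ⟨J, hJ, hleaf⟩ := go_sound hfz hfo L 0 s'.A s'.S ones hlen hok hind hgo'
  have hmt : ∀ m ∈ ml, mask m.1 / 2 ^ p < 2 ^ t := fun m hm' => by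
    rw [Nat.div_lt_iff_lt_mul (by positivity), ← pow_add, add_comm]
    exact mask_lt (hm m hm')
  have hzm : ∀ m ∈ ml, z (mask m.1 / 2 ^ p) = (mask m.1 / 2 ^ p + 1) +
      2 ^ c * pk b (fun K => if sb (mask m.1 / 2 ^ p) K then 1 else 0) ll.flatten := by
    intro m hm'
    rw [hz, zS_eq, List.range_eq_range', hones, zA_eq hb ll t 0 _ (hmt m hm')]
    simp only [pow_zero, Nat.div_one]
  -- the values
  have hsA : s'.A + lA L y = (ml.map fun m => if sb (mask m.1 % 2 ^ p) y
      then (-m.2.2).toNat * (mask m.1 / 2 ^ p + 1) else 0).sum + 2 ^ c * pk b (fun K =>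
      (ml.map fun m =>
      if sb (mask m.1 % 2 ^ p) y ∧ sb (mask m.1 / 2 ^ p) K then (-m.2.2).toNat else 0).sum)
        ll.flatten := by
    have h1 := (hs2.1 y).1
    have h2 := (hL2 y).1
    rw [h2]
    show s'.A + (0 + tA s'.T y) = _
    rw [zero_add, h1]
    show 0 + 0 + vN p z y ml = _
    rw [add_zero, zero_add]
    exact pk_sum z (fun m => (-m.2.2).toNat) ml hzm
  have hsS : s'.S + lS L y = (ml.map fun m => if sb (mask m.1 % 2 ^ p) y
      then m.2.2.toNat * (mask m.1 / 2 ^ p + 1) else 0).sum + 2 ^ c * pk b (fun K =>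
      (ml.map fun m =>
      if sb (mask m.1 % 2 ^ p) y ∧ sb (mask m.1 / 2 ^ p) K then m.2.2.toNat else 0).sum)
        ll.flatten := by
    have h1 := (hs2.1 y).2
    have h2 := (hL2 y).2
    rw [h2]
    show s'.S + (0 + tS s'.T y) = _
    rw [zero_add, h1]
    show 0 + 0 + vP p z y ml = _
    rw [add_zero, zero_add]
    exact pk_sum z (fun m => m.2.2.toNat) ml hzm
  obtain ⟨u, hu1, hu2, hu3⟩ := lV_spec hb L adjs 0 (fun _ => 1) (x := y) hinfo
    (fun _ => le_rfl)
  rw [← hones] at hu1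
  rw [hsA, hsS, hu1] at hleaf
  have hC : ((2 ^ (b - 1) + D) * ones) <<< c =
      2 ^ c * pk b (fun _ => 2 ^ (b - 1) + D) ll.flatten := by
    rw [Nat.shiftLeft_eq, mul_comm, hones, pk_mul]
    simp only [mul_one]
  have htot' : s'.t = vT ml := by
    have := hs2.2
    rw [this]
    show 0 + vT ml = _
    rw [zero_add]
  rw [htot'] at htot htot2
  rw [hC] at hleaf
  have hfin := leaf_sound' (D := D) hb hc (fun K _ => hu2 K) (vT ml)
    (fun K _ => sum_le_vT (fun m => sb (mask m.1 % 2 ^ p) y ∧ sb (mask m.1 / 2 ^ p) K)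
      (fun m => m.2.2.toNat) (fun m => by omega) ml)
    (fun K _ => sum_le_vT (fun m => sb (mask m.1 % 2 ^ p) y ∧ sb (mask m.1 / 2 ^ p) K)
      (fun m => (-m.2.2).toNat) (fun m => by omega) ml)
    htot
    (lt_of_le_of_lt (sum_low_le (fun m => (-m.2.2).toNat) (fun m => by omega) ml hmt) htot2)
    (lt_of_le_of_lt (sum_low_le (fun m => m.2.2.toNat) (fun m => by omega) ml hmt) htot2)
    hJ hleaf (x / 2 ^ p) hK
    (hu3 _ rfl fun j hj hyj => by
      rw [zero_add] at hyj
      have h1 := hadj j hj (hyt j hyj)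
      -- the suffix parts
      apply Nat.eq_of_testBit_eq
      intro i
      rw [Nat.testBit_land, Nat.testBit_div_two_pow, Nat.testBit_div_two_pow, Nat.zero_testBit,
        Bool.and_comm]
      have h2 := congrArg (fun z => Nat.testBit z (i + p)) h1
      simpa only [Nat.testBit_land, Nat.zero_testBit] using h2)
  have hP : fP ml x = (ml.map fun m =>
      if sb (mask m.1 % 2 ^ p) y ∧ sb (mask m.1 / 2 ^ p) (x / 2 ^ p) then m.2.2.toNat else 0).sum := by
    unfold fP
    congr 1
    refine List.map_congr_left fun m _ => ?_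
    rw [hy]
    have := sb_split p (M := mask m.1) (x := x)
    simp only [this]
  have hN : fN ml x = (ml.map fun m =>
      if sb (mask m.1 % 2 ^ p) y ∧ sb (mask m.1 / 2 ^ p) (x / 2 ^ p) then (-m.2.2).toNat else 0).sum := by
    unfold fN
    congr 1
    refine List.map_congr_left fun m _ => ?_
    rw [hy]
    have := sb_split p (M := mask m.1) (x := x)
    simp only [this]
  rw [hP, hN]
  exact hfin

end Pool.Agent.H39Chif
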