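import Pool.Agent.Helper39_Chif.Bits

/-!
# Trees of masks and the depth first search
-/

set_option autoImplicit false

namespace Pool.Agent.H39Chif

/-- trees of masks, first child and next sibling -/
inductive Tr : Type
  | nil : Tr
  | cons (e a s : ℕ) (kids sibs : Tr) : Tr

/-- negative part -/
def tA : Tr → ℕ → ℕ
  | .nil, _ => 0
  | .cons e a _ kd sbs, x => (if sb e x then a + tA kd x else 0) + tA sbs x

/-- positive part -/
def tS : Tr → ℕ → ℕ
  | .nil, _ => 0
  | .cons e _ s kd sbs, x => (if sb e x then s + tS kd x else 0) + tS sbs x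

/-- add the weights of the masks contained in `J` -/
noncomputable def visit (J : ℕ) (T : Tr) : ℕ → ℕ → (ℕ → ℕ → Bool) → Bool :=
  Tr.rec (motive := fun _ => ℕ → ℕ → (ℕ → ℕ → Bool) → Bool)
    (fun A S k => k A S)
    (fun e a s _ _ ihk ihs A S k =>
      @Bool.rec (fun _ => Bool) (ihs A S k)
        (ihk (Nat.add A a) (Nat.add S s) fun A'' S'' => ihs A'' S'' k)
        (Nat.beq (Nat.land e J) e)) T

theorem visit_eq (J : ℕ) (T : Tr) : ∀ (A S : ℕ) (k : ℕ → ℕ → Bool),
    visit J T A S k = k (A + tA T J) (S + tS T J) := by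
  induction T with
  | nil => intro A S k; rfl
  | cons e a s kd sbs ihk ihs =>
    intro A S k
    show sel (Nat.beq (Nat.land e J) e)
        (visit J kd (Nat.add A a) (Nat.add S s) fun A'' S'' => visit J sbs A'' S'' k)
        (visit J sbs A S k) = _
    simp only [tA, tS]
    by_cases h : sb e J
    · have h1 : Nat.beq (Nat.land e J) e = true := by
        rw [Nat.beq_eq]
        exact h
      rw [h1, selT, ihk, ihs, if_pos h, if_pos h]
      show k (A + a + tA kd J + tA sbs J) (S + s + tS kd J + tS sbs J) = _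
      simp only [add_assoc]
    · have h1 : Nat.beq (Nat.land e J) e = false := by
        rw [← Bool.not_eq_true, Nat.beq_eq]
        exact h
      rw [h1, selF, ihs, if_neg h, if_neg h, zero_add, zero_add]

/-- the levels of the search -/
inductive Lv : Type
  | nil : Lv
  | cons (bit adj nv a s : ℕ) (kids : Tr) (tl : Lv) : Lv

/-- one step of the search, the vertex being chosen -/
noncomputable def goY (bit nv a s : ℕ) (kids : Tr) (ih : ℕ → ℕ → ℕ → Bool) (A S V : ℕ) : Bool :=
  visit V kids (Nat.add A a) (Nat.add S s) fun A' S' => force (Nat.add (Nat.land V nv) bit) fun V' =>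
    ih A' S' V'

/-- the search; the low part of `V` is the set of chosen vertices -/
noncomputable def go (fz fo : ℕ) (leaf : ℕ → ℕ → ℕ → Bool) (L : Lv) : ℕ → ℕ → ℕ → Bool :=
  Lv.rec (motive := fun _ => ℕ → ℕ → ℕ → Bool)
    (fun A S V => leaf A S V)
    (fun bit adj nv a s kids _ ih A S V =>
      @Bool.rec (fun _ => Bool) false
        (@Bool.rec (fun _ => Bool) true
          (@Bool.rec (fun _ => Bool) true (goY bit nv a s kids ih A S V)
            (Nat.beq (Nat.land adj V) 0))
          (Nat.beq (Nat.land bit fz) 0))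
        (@Bool.rec (fun _ => Bool) true (ih A S V) (Nat.beq (Nat.land bit fo) 0))) L

def lA : Lv → ℕ → ℕ
  | .nil, _ => 0
  | .cons bit _ _ a _ kd tl, x => (if sb bit x then a + tA kd x else 0) + lA tl x

def lS : Lv → ℕ → ℕ
  | .nil, _ => 0
  | .cons bit _ _ _ s kd tl, x => (if sb bit x then s + tS kd x else 0) + lS tl x

def lV (c : ℕ) : Lv → ℕ → ℕ → ℕ
  | .nil, _, X => X
  | .cons bit _ nv _ _ _ tl, x, X => lV c tl x (if sb bit x then X &&& (nv / 2 ^ c) else X)

def lInd (c : ℕ) : Lv → ℕ → Prop
  | .nil, _ => True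
  | .cons bit adj nv _ _ _ tl, x => ((sb bit x → adj &&& (x % bit) = 0) ∧ adj < 2 ^ c ∧
      nv % 2 ^ c = 2 ^ c - 1) ∧ lInd c tl x

def lLen : Lv → ℕ
  | .nil => 0
  | .cons _ _ _ _ _ _ tl => lLen tl + 1

/-- all masks of the tree are less than `B` -/
noncomputable def okT (B : ℕ) (T : Tr) : Bool :=
  Tr.rec (motive := fun _ => Bool) true
    (fun e _ _ _ _ ihk ihs => @Bool.rec (fun _ => Bool) false
      (@Bool.rec (fun _ => Bool) false ihs ihk) (Nat.blt e B)) T

/-- the levels are `2 ^ v`, `2 ^ (v + 1)`, ... -/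
noncomputable def okL (L : Lv) : ℕ → Bool :=
  Lv.rec (motive := fun _ => ℕ → Bool) (fun _ => true)
    (fun bit _ _ _ _ kids _ ih v => @Bool.rec (fun _ => Bool) false
      (@Bool.rec (fun _ => Bool) false (ih (Nat.succ v)) (okT bit kids))
      (Nat.beq bit (Nat.pow 2 v))) L

theorem okT_spec {v x : ℕ} : ∀ {T : Tr}, okT (2 ^ v) T = true →
    tA T (x % 2 ^ v) = tA T x ∧ tS T (x % 2 ^ v) = tS T x
  | .nil, _ => ⟨rfl, rfl⟩
  | .cons e a s kd sbs, h => by
    have h' : (Nat.blt e (2 ^ v) && (okT (2 ^ v) kd && okT (2 ^ v) sbs)) = true := by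
      rw [← sel_and, ← sel_and]
      exact h
    rw [Bool.and_eq_true, Bool.and_eq_true, Nat.blt_eq] at h'
    obtain ⟨h1, h2, h3⟩ := h'
    have h4 := sb_mod (x := x) h1
    simp only [tA, tS, (okT_spec h2).1, (okT_spec h2).2, (okT_spec h3).1, (okT_spec h3).2, h4,
      and_self]

theorem okT_spec' {v V x : ℕ} {T : Tr} (h : okT (2 ^ v) T = true) (hV : V % 2 ^ v = x % 2 ^ v) :
    tA T V = tA T x ∧ tS T V = tS T x := by
  rw [← (okT_spec (x := V) h).1, ← (okT_spec (x := V) h).2, hV]
  exact okT_spec h

theorem sb_two_pow {v x : ℕ} : sb (2 ^ v) x ↔ x.testBit v = true := by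
  rw [sb_iff]
  constructor
  · intro h
    exact h v (by simp)
  · intro h i hi
    rw [Nat.testBit_two_pow] at hi
    have : v = i := by simpa using hi
    rw [← this]
    exact h

theorem go_sound {c fz fo : ℕ} {leaf : ℕ → ℕ → ℕ → Bool} {x : ℕ} (hfz : x &&& fz = 0)
    (hfo : sb fo x) : ∀ (L : Lv) (v A S X : ℕ), v + lLen L ≤ c → okL L v = true →
    lInd c L x → go fz fo leaf L A S (x % 2 ^ v + 2 ^ c * X) = true →
    ∃ J, J < 2 ^ c ∧ leaf (A + lA L x) (S + lS L x) (J + 2 ^ c * lV c L x X) = true
  | .nil, v, A, S, X, hvc, _, _, h => ⟨x % 2 ^ v, lt_of_lt_of_le (Nat.mod_lt _ (by positivity))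
      (Nat.pow_le_pow_right (by norm_num) (by simpa [lLen] using hvc)), h⟩
  | .cons bit adj nv a s kids tl, v, A, S, X, hvc, hok, hind, h => by
    obtain ⟨V, hV⟩ : ∃ V, V = x % 2 ^ v + 2 ^ c * X := ⟨_, rfl⟩
    rw [← hV] at h
    have hok' : (Nat.beq bit (2 ^ v) && (okT bit kids && okL tl (v + 1))) = true := by
      rw [← sel_and, ← sel_and]
      exact hok
    rw [Bool.and_eq_true, Bool.and_eq_true, Nat.beq_eq] at hok'
    obtain ⟨hb, hk, htl⟩ := hok'
    subst hb
    have h' : ((sel (Nat.beq (Nat.land (2 ^ v) fo) 0) (go fz fo leaf tl A S V) true) &&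
        (sel (Nat.beq (Nat.land (2 ^ v) fz) 0)
          (sel (Nat.beq (Nat.land adj V) 0)
            (goY (2 ^ v) nv a s kids (go fz fo leaf tl) A S V) true) true)) = true := by
      rw [← sel_and]
      exact h
    rw [Bool.and_eq_true] at h'
    obtain ⟨h0, h1⟩ := h'
    obtain ⟨⟨hi, hadj, hnv⟩, hind'⟩ := hind
    have hvc' : v + 1 + lLen tl ≤ c := by
      rw [lLen] at hvc
      omega
    have hlt : 2 ^ v + 2 ^ v ≤ 2 ^ c := by
      have : 2 ^ v + 2 ^ v = 2 ^ (v + 1) := by rw [pow_succ]; ring
      rw [this]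
      exact Nat.pow_le_pow_right (by norm_num) (by omega)
    have hJlt : x % 2 ^ v < 2 ^ v := Nat.mod_lt _ (by positivity)
    have hdvd : 2 ^ v ∣ 2 ^ c * X :=
      Dvd.dvd.mul_right (Nat.pow_dvd_pow 2 (by omega)) X
    have hVmod : V % 2 ^ v = x % 2 ^ v := by
      rw [hV, Nat.add_mod, Nat.mod_eq_zero_of_dvd hdvd, add_zero, Nat.mod_mod, Nat.mod_mod]
    have hmod : x % 2 ^ (v + 1) = x % 2 ^ v + (if x.testBit v then 2 ^ v else 0) := by
      rw [Nat.mod_pow_succ, ← Nat.toNat_testBit]
      cases x.testBit v <;> simp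
    by_cases hx : sb (2 ^ v) x
    · -- the vertex is chosen
      have hxt := sb_two_pow.1 hx
      have e1 : Nat.beq (Nat.land (2 ^ v) fz) 0 = true := by
        rw [Nat.beq_eq]
        show 2 ^ v &&& fz = 0
        apply Nat.eq_of_testBit_eq
        intro i
        rw [Nat.testBit_land, Nat.zero_testBit]
        by_cases hiv : v = i
        · subst hiv
          have h2 := congrArg (fun z => Nat.testBit z v) hfz
          simp only [Nat.testBit_land, hxt, Bool.true_and, Nat.zero_testBit] at h2
          rw [h2, Bool.and_false]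
        · rw [Nat.testBit_two_pow]
          simp [hiv]
      have e2 : Nat.beq (Nat.land adj V) 0 = true := by
        rw [Nat.beq_eq, hV]
        have h3 := land_pack (x := 0) (y := X) hadj (lt_of_lt_of_le hJlt (by omega :
          2 ^ v ≤ 2 ^ c))
        rw [mul_zero, add_zero, Nat.zero_and, mul_zero, add_zero, hi hx] at h3
        exact h3
      have e3 : Nat.add (Nat.land V nv) (2 ^ v) = x % 2 ^ (v + 1) + 2 ^ c * (X &&& (nv / 2 ^ c)) := by
        have h3 : nv = (2 ^ c - 1) + 2 ^ c * (nv / 2 ^ c) := by
          conv_lhs => rw [← Nat.mod_add_div nv (2 ^ c), hnv]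
        have h4 : V &&& nv = x % 2 ^ v + 2 ^ c * (X &&& (nv / 2 ^ c)) := by
          have h6 : x % 2 ^ v &&& (2 ^ c - 1) = x % 2 ^ v := by
            rw [Nat.and_two_pow_sub_one_eq_mod, Nat.mod_eq_of_lt]
            omega
          rw [hV]
          conv_lhs => rw [h3]
          rw [land_pack (by omega) (by omega), h6]
        show (V &&& nv) + 2 ^ v = _
        rw [h4, hmod, if_pos hxt]
        ring
      rw [e1, selT, e2, selT] at h1
      unfold goY at h1
      rw [visit_eq, force_eq, e3] at h1
      obtain ⟨J, hJ, h2⟩ := go_sound hfz hfo tl (v + 1) _ _ _ hvc' htl hind' h1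
      refine ⟨J, hJ, ?_⟩
      have h5 := okT_spec' hk hVmod
      rw [h5.1, h5.2] at h2
      simp only [lA, lS, lV, if_pos hx]
      have e5 : A + (a + tA kids x + lA tl x) = Nat.add A a + tA kids x + lA tl x := by
        show A + (a + tA kids x + lA tl x) = A + a + tA kids x + lA tl x
        ring
      have e4 : S + (s + tS kids x + lS tl x) = Nat.add S s + tS kids x + lS tl x := by
        show S + (s + tS kids x + lS tl x) = S + s + tS kids x + lS tl x
        ring
      rw [e5, e4]
      exact h2
    · -- the vertex is not chosen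
      have hxt : x.testBit v = false := by
        rw [← Bool.not_eq_true]
        exact fun h2 => hx (sb_two_pow.2 h2)
      have e1 : Nat.beq (Nat.land (2 ^ v) fo) 0 = true := by
        rw [Nat.beq_eq]
        show 2 ^ v &&& fo = 0
        apply Nat.eq_of_testBit_eq
        intro i
        rw [Nat.testBit_land, Nat.zero_testBit]
        by_cases hiv : v = i
        · subst hiv
          cases h2 : fo.testBit v with
          | false => rw [Bool.and_false]
          | true =>
            have := sb_iff.1 hfo v h2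
            rw [hxt] at this
            exact absurd this (by simp)
        · rw [Nat.testBit_two_pow]
          simp [hiv]
      rw [e1, selT] at h0
      have e3 : V = x % 2 ^ (v + 1) + 2 ^ c * X := by
        rw [hV, hmod, hxt]
        simp
      rw [e3] at h0
      obtain ⟨J, hJ, h2⟩ := go_sound hfz hfo tl (v + 1) _ _ _ hvc' htl hind' h0
      refine ⟨J, hJ, ?_⟩
      simp only [lA, lS, lV, if_neg hx, zero_add]
      exact h2

/-! ### Insertion -/

/-- a new node -/
noncomputable def insN (pos : Bool) (w : ℕ) (ih : ℕ → Tr → (Tr → Bool) → Bool) (e R' : ℕ)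
    (rest : Tr) (k : Tr → Bool) : Bool :=
  @Bool.rec (fun _ => Bool) (ih R' Tr.nil fun kd' => k (Tr.cons e 0 0 kd' rest))
    (@Bool.rec (fun _ => Bool) (k (Tr.cons e w 0 Tr.nil rest)) (k (Tr.cons e 0 w Tr.nil rest)) pos)
    (Nat.beq R' 0)

/-- the node is found -/
noncomputable def insH (pos : Bool) (w : ℕ) (ih : ℕ → Tr → (Tr → Bool) → Bool) (R' : ℕ)
    (e' a s : ℕ) (kd sbs : Tr) (k : Tr → Bool) : Bool :=
  @Bool.rec (fun _ => Bool) (ih R' kd fun kd' => k (Tr.cons e' a s kd' sbs))
    (@Bool.rec (fun _ => Bool) (force (Nat.add a w) fun a' => k (Tr.cons e' a' s kd sbs))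
      (force (Nat.add s w) fun s' => k (Tr.cons e' a s' kd sbs)) pos)
    (Nat.beq R' 0)

/-- the node is found, or a new node is made -/
noncomputable def insF (pos : Bool) (w : ℕ) (ih : ℕ → Tr → (Tr → Bool) → Bool) (e R' : ℕ)
    (e' a s : ℕ) (kd sbs : Tr) (k : Tr → Bool) : Bool :=
  @Bool.rec (fun _ => Bool) (insN pos w ih e R' (Tr.cons e' a s kd sbs) k)
    (insH pos w ih R' e' a s kd sbs k) (Nat.beq e' e)

/-- insertion in the list of siblings -/
noncomputable def insB (pos : Bool) (w : ℕ) (ih : ℕ → Tr → (Tr → Bool) → Bool) (e R' : ℕ) (T : Tr) :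
    (Tr → Bool) → Bool :=
  Tr.rec (motive := fun _ => (Tr → Bool) → Bool)
    (fun k => insN pos w ih e R' Tr.nil k)
    (fun e' a s kd sbs _ ihs k =>
      @Bool.rec (fun _ => Bool) (ihs fun sbs' => k (Tr.cons e' a s kd sbs'))
        (insF pos w ih e R' e' a s kd sbs k) (Nat.ble e' e)) T

/-- insert the mask `R` with the weight `w` -/
noncomputable def insT (pos : Bool) (w : ℕ) (fuel : ℕ) : ℕ → Tr → (Tr → Bool) → Bool :=
  Nat.rec (motive := fun _ => ℕ → Tr → (Tr → Bool) → Bool)
    (fun R T k => @Bool.rec (fun _ => Bool) (k (Tr.cons R w 0 Tr.nil T))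
      (k (Tr.cons R 0 w Tr.nil T)) pos)
    (fun _ ih R T k =>
      force (Nat.shiftLeft 1 (Nat.log2 R)) fun e => force (Nat.sub R e) fun R' =>
        insB pos w ih e R' T k)
    fuel

/-- `T'` is `T` together with the mask `R` -/
def Added (pos : Bool) (w R : ℕ) (T T' : Tr) : Prop :=
  ∀ x, tA T' x = tA T x + (if pos = false ∧ sb R x then w else 0) ∧
    tS T' x = tS T x + (if pos = true ∧ sb R x then w else 0)

theorem top_split {R : ℕ} (hR : R ≠ 0) (x : ℕ) :
    sb R x ↔ sb (Nat.shiftLeft 1 (Nat.log2 R)) x ∧ sb (R - Nat.shiftLeft 1 (Nat.log2 R)) x := by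
  have h1 : Nat.shiftLeft 1 (Nat.log2 R) = 2 ^ Nat.log2 R := Nat.one_shiftLeft _
  rw [h1]
  have h2 : 2 ^ Nat.log2 R ≤ R := Nat.log2_self_le hR
  have h3 : R < 2 ^ (Nat.log2 R + 1) := Nat.lt_log2_self
  have h4 : R - 2 ^ Nat.log2 R < 2 ^ Nat.log2 R := by
    rw [pow_succ] at h3
    omega
  rw [← sb_lor, Nat.or_comm]
  have h5 : R = (R - 2 ^ Nat.log2 R) ||| 2 ^ Nat.log2 R := by
    have h6 := Nat.two_pow_add_eq_or_of_lt h4 1
    rw [mul_one] at h6
    rw [Nat.or_comm, ← h6]
    omega
  rw [← h5]

theorem insT_spec (pos : Bool) (w : ℕ) : ∀ (fuel R : ℕ), R ≠ 0 → ∀ T : Tr,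
    ∃ T', (∀ k : Tr → Bool, insT pos w fuel R T k = k T') ∧ Added pos w R T T' := by
  intro fuel
  induction fuel with
  | zero =>
    intro R _ T
    cases pos with
    | false =>
      refine ⟨Tr.cons R w 0 Tr.nil T, fun k => rfl, fun x => ?_⟩
      simp only [tA, tS]
      by_cases h : sb R x <;> simp [h, add_comm]
    | true =>
      refine ⟨Tr.cons R 0 w Tr.nil T, fun k => rfl, fun x => ?_⟩
      simp only [tA, tS]
      by_cases h : sb R x <;> simp [h, add_comm]
  | succ fuel ih =>
    intro R hR T
    obtain ⟨e, he⟩ : ∃ e, e = Nat.shiftLeft 1 (Nat.log2 R) := ⟨_, rfl⟩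
    obtain ⟨R', hR'⟩ : ∃ R', R' = R - e := ⟨_, rfl⟩
    have hsp : ∀ x, sb R x ↔ sb e x ∧ sb R' x := by
      intro x
      rw [hR', he]
      exact top_split hR x
    -- a new node
    have hnew : ∀ rest : Tr, ∃ T', (∀ k : Tr → Bool,
        insN pos w (insT pos w fuel) e R' rest k = k T') ∧
        Added pos w R rest T' := by
      intro rest
      have hu : ∀ k : Tr → Bool, insN pos w (insT pos w fuel) e R' rest k =
          sel (Nat.beq R' 0)
            (sel pos (k (Tr.cons e 0 w Tr.nil rest)) (k (Tr.cons e w 0 Tr.nil rest)))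
            (insT pos w fuel R' Tr.nil fun kd' => k (Tr.cons e 0 0 kd' rest)) := fun k => rfl
      by_cases h0 : R' = 0
      · have e1 : Nat.beq R' 0 = true := by rw [Nat.beq_eq]; exact h0
        have h1 : ∀ x, sb R x ↔ sb e x := by
          intro x
          rw [hsp, h0]
          exact and_iff_left (sb_zero x)
        cases pos with
        | false =>
          refine ⟨Tr.cons e w 0 Tr.nil rest, fun k => by rw [hu, e1, selT, selF], fun x => ?_⟩
          simp only [tA, tS, h1]
          by_cases h : sb e x <;> simp [h, add_comm]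
        | true =>
          refine ⟨Tr.cons e 0 w Tr.nil rest, fun k => by rw [hu, e1, selT, selT], fun x => ?_⟩
          simp only [tA, tS, h1]
          by_cases h : sb e x <;> simp [h, add_comm]
      · have e1 : Nat.beq R' 0 = false := by rw [← Bool.not_eq_true, Nat.beq_eq]; exact h0
        obtain ⟨kd', hk1, hk2⟩ := ih R' h0 Tr.nil
        refine ⟨Tr.cons e 0 0 kd' rest, fun k => ?_, fun x => ?_⟩
        · rw [hu, e1, selF, hk1]
        · have h2 := hk2 x
          simp only [tA, tS, hsp, h2.1, h2.2]
          by_cases h : sb e x <;> simp [h, add_comm]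
    have hmain : ∀ T : Tr, ∃ T', (∀ k : Tr → Bool,
        insB pos w (insT pos w fuel) e R' T k = k T') ∧ Added pos w R T T' := by
      intro T
      induction T with
      | nil => exact hnew Tr.nil
      | cons e' a s kd sbs _ ihs =>
        have hu : ∀ k : Tr → Bool, insB pos w (insT pos w fuel) e R' (Tr.cons e' a s kd sbs) k =
            sel (Nat.ble e' e)
              (sel (Nat.beq e' e)
                (sel (Nat.beq R' 0)
                  (sel pos (force (Nat.add s w) fun s' => k (Tr.cons e' a s' kd sbs))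
                    (force (Nat.add a w) fun a' => k (Tr.cons e' a' s kd sbs)))
                  (insT pos w fuel R' kd fun kd' => k (Tr.cons e' a s kd' sbs)))
                (insN pos w (insT pos w fuel) e R' (Tr.cons e' a s kd sbs) k))
              (insB pos w (insT pos w fuel) e R' sbs fun sbs' => k (Tr.cons e' a s kd sbs')) :=
          fun k => rfl
        by_cases h1 : e' = e
        · have e1 : Nat.beq e' e = true := by rw [Nat.beq_eq]; exact h1
          have e0 : Nat.ble e' e = true := by rw [Nat.ble_eq]; exact h1.le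
          by_cases h0 : R' = 0
          · have e2 : Nat.beq R' 0 = true := by rw [Nat.beq_eq]; exact h0
            have h2 : ∀ x, sb R x ↔ sb e' x := by
              intro x
              rw [hsp, h0, h1]
              exact and_iff_left (sb_zero x)
            cases pos with
            | false =>
              refine ⟨Tr.cons e' (a + w) s kd sbs, fun k => ?_, fun x => ?_⟩
              · rw [hu, e0, selT, e1, selT, e2, selT, selF, force_eq]
                rfl
              · simp only [tA, tS, h2]
                by_cases h : sb e' x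
                · simp [h]
                  omega
                · simp [h]
            | true =>
              refine ⟨Tr.cons e' a (s + w) kd sbs, fun k => ?_, fun x => ?_⟩
              · rw [hu, e0, selT, e1, selT, e2, selT, selT, force_eq]
                rfl
              · simp only [tA, tS, h2]
                by_cases h : sb e' x
                · simp [h]
                  omega
                · simp [h]
          · have e2 : Nat.beq R' 0 = false := by
              rw [← Bool.not_eq_true, Nat.beq_eq]; exact h0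
            obtain ⟨kd', hk1, hk2⟩ := ih R' h0 kd
            refine ⟨Tr.cons e' a s kd' sbs, fun k => ?_, fun x => ?_⟩
            · rw [hu, e0, selT, e1, selT, e2, selF, hk1]
            · have h2 := hk2 x
              simp only [tA, tS, hsp, h2.1, h2.2, h1]
              by_cases h : sb e x
              · simp only [h, true_and, if_true]
                constructor <;> omega
              · simp [h]
        · have e1 : Nat.beq e' e = false := by rw [← Bool.not_eq_true, Nat.beq_eq]; exact h1
          by_cases h3 : e' ≤ e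
          · have e3 : Nat.ble e' e = true := by rw [Nat.ble_eq]; exact h3
            obtain ⟨T', hT1, hT2⟩ := hnew (Tr.cons e' a s kd sbs)
            refine ⟨T', fun k => ?_, hT2⟩
            rw [hu, e3, selT, e1, selF]
            exact hT1 k
          · have e3 : Nat.ble e' e = false := by
              rw [← Bool.not_eq_true, Nat.ble_eq]; exact h3
            obtain ⟨sbs', hs1, hs2⟩ := ihs
            refine ⟨Tr.cons e' a s kd sbs', fun k => ?_, fun x => ?_⟩
            · rw [hu, e3, selF, hs1]
            · have h2 := hs2 x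
              simp only [tA, tS, h2.1, h2.2]
              constructor <;> omega
    obtain ⟨T', h1, h2⟩ := hmain T
    refine ⟨T', fun k => ?_, h2⟩
    rw [← h1 k, hR', he]
    show force (Nat.shiftLeft 1 (Nat.log2 R)) (fun e => force (Nat.sub R e) fun R' =>
      insB pos w (insT pos w fuel) e R' T k) = _
    rw [force_eq, force_eq]
    rfl

end Pool.Agent.H39Chif
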