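import Pool.Agent.Helper39_Chif.Check

/-!
# The inequality for the certificate
-/

set_option autoImplicit false

namespace Pool.Agent.H39Chif

open Pool.Agent.H18FC (decCls decMs decMem lst fld cOff Cls val sub?)

/-- the independent sets of the suffix -/
def gen : List ℕ → List ℕ
  | [] => [0]
  | a :: l => gen l ++ ((gen l).filter fun K => Nat.beq (Nat.land K a) 0).map
      fun K => Nat.add K (Nat.pow 2 l.length)

/-- independence in the suffix -/
def okS : List ℕ → ℕ → Prop
  | [], _ => True
  | a :: l, K => (K.testBit l.length = true → (K % 2 ^ l.length) &&& a = 0) ∧ okS l K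

theorem gen_complete : ∀ (l : List ℕ) (K : ℕ), okS l K → K % 2 ^ l.length ∈ gen l
  | [], K, _ => by simp [gen, Nat.mod_one]
  | a :: l, K, h => by
    have ih := gen_complete l K h.2
    have e : K % 2 ^ (a :: l).length =
        K % 2 ^ l.length + (if K.testBit l.length then 2 ^ l.length else 0) := by
      rw [List.length_cons, Nat.mod_pow_succ, ← Nat.toNat_testBit]
      cases K.testBit l.length <;> simp
    rw [e, gen, List.mem_append]
    cases hb : K.testBit l.length with
    | false =>
      left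
      simpa using ih
    | true =>
      right
      rw [List.mem_map]
      refine ⟨K % 2 ^ l.length, ?_, by simp⟩
      rw [List.mem_filter]
      refine ⟨ih, ?_⟩
      rw [Nat.beq_eq]
      exact h.1 hb

/-- the adjacency masks of the suffix -/
def sufs (adjL : List ℕ) (p : ℕ) : ℕ → List ℕ
  | 0 => []
  | i + 1 => Nat.shiftRight (adjL.getD (p + i) 0) p :: sufs adjL p i

theorem sufs_length (adjL : List ℕ) (p : ℕ) : ∀ i, (sufs adjL p i).length = i
  | 0 => rfl
  | i + 1 => by rw [sufs, List.length_cons, sufs_length adjL p i]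

theorem okS_sufs {adjL : List ℕ} {p x : ℕ}
    (h : ∀ v, x.testBit v = true → adjL.getD v 0 &&& x = 0) : ∀ i,
    okS (sufs adjL p i) (x / 2 ^ p)
  | 0 => trivial
  | i + 1 => by
    refine ⟨fun hi => ?_, okS_sufs h i⟩
    rw [sufs_length, Nat.testBit_div_two_pow] at hi
    rw [sufs_length]
    have h1 := h (p + i) (by rw [add_comm]; exact hi)
    have h2 : adjL.getD (p + i) 0 / 2 ^ p &&& x / 2 ^ p = 0 := by
      apply Nat.eq_of_testBit_eq
      intro j
      rw [Nat.testBit_land, Nat.testBit_div_two_pow, Nat.testBit_div_two_pow, Nat.zero_testBit]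
      have h3 := congrArg (fun z => Nat.testBit z (j + p)) h1
      simpa only [Nat.testBit_land, Nat.zero_testBit] using h3
    have h4 : Nat.shiftRight (adjL.getD (p + i) 0) p = adjL.getD (p + i) 0 / 2 ^ p :=
      Nat.shiftRight_eq_div_pow _ _
    rw [h4, Nat.and_comm]
    exact land_eq_zero_of_sb h2 (sb_mod_self _ i)

/-- sets and masks -/
theorem exists_mask (n : ℕ) (I : Finset ℕ) (hI : I ⊆ Finset.range n) :
    ∃ x, x < 2 ^ n ∧ ∀ i, x.testBit i = true ↔ i ∈ I := by
  refine ⟨mask I.toList, ?_, fun i => ?_⟩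
  · refine mask_lt fun v hv => ?_
    exact Finset.mem_range.1 (hI (Finset.mem_toList.1 hv))
  · rw [mask_testBit, Finset.mem_toList]

theorem sub_iff_sb {I : Finset ℕ} {x : ℕ} (hx : ∀ i, x.testBit i = true ↔ i ∈ I) (l : List ℕ) :
    sub? l I ↔ sb (mask l) x := by
  rw [sb_iff]
  simp only [mask_testBit, hx]
  exact Iff.rfl

theorem val_eq {I : Finset ℕ} {x : ℕ} (hx : ∀ i, x.testBit i = true ↔ i ∈ I) (cs : List Cls) :
    val cs I = (fP (cs.flatMap fun cl => cl.2) x : ℤ) - fN (cs.flatMap fun cl => cl.2) x := by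
  have h1 : ∀ l : List Mb, (l.map fun m => if sub? m.1 I then m.2.2 else 0).sum =
      (fP l x : ℤ) - fN l x := by
    intro l
    induction l with
    | nil => rfl
    | cons m l ih =>
      rw [List.map_cons, List.sum_cons, ih]
      unfold fP fN
      rw [List.map_cons, List.sum_cons, List.map_cons, List.sum_cons]
      by_cases h : sub? m.1 I
      · have h' := (sub_iff_sb hx m.1).1 h
        rw [if_pos h, if_pos h', if_pos h']
        push_cast
        have h2 : (m.2.2.toNat : ℤ) - ((-m.2.2).toNat : ℤ) = m.2.2 := by omega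
        linarith
      · have h' : ¬ sb (mask m.1) x := fun h2 => h ((sub_iff_sb hx m.1).2 h2)
        rw [if_neg h, if_neg h', if_neg h']
        push_cast
        ring
  unfold val
  induction cs with
  | nil => rfl
  | cons cl cs ih =>
    rw [List.map_cons, List.sum_cons, ih, h1, List.flatMap_cons]
    unfold fP fN
    rw [List.map_append, List.sum_append, List.map_append, List.sum_append]
    push_cast
    ring

theorem hineq_of {b c p t n D : ℕ} {adj : ℕ → ℕ → Bool} {adjL : List ℕ} {ll : List (List ℕ)}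
    {lits : List ℕ} (hb : 0 < b) (hn : n = p + t)
    (hadjL : ∀ v < n, ∀ w < n, (adjL.getD v 0).testBit w = true → adj v w = true)
    (hgen : gen (sufs adjL p t) = ll.flatten)
    (hm : ∀ cl ∈ lits.map decCls, ∀ m ∈ cl.2, ∀ v ∈ m.1, v < n)
    (parts : List (ℕ × ℕ)) (q : ℕ) (hqp : q ≤ p)
    (hcov : ∀ y < 2 ^ q, ∃ pt ∈ parts, y &&& pt.1 = 0 ∧ sb pt.2 y)
    (hpl : ∀ pt ∈ parts, pt.1 < 2 ^ q ∧ pt.2 < 2 ^ q)
    (hchk : ∀ pt ∈ parts, chk b c p t D (adjL.take p) ll lits pt.1 pt.2 = true) :
    ∀ I : Finset ℕ, I ⊆ Finset.range n → (∀ v ∈ I, ∀ w ∈ I, adj v w = false) →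
      val (lits.map decCls) I ≤ D := by
  intro I hI hind
  obtain ⟨x, hxn, hx⟩ := exists_mask n I hI
  have hxadj : ∀ v, x.testBit v = true → adjL.getD v 0 &&& x = 0 := by
    intro v hv
    apply Nat.eq_of_testBit_eq
    intro w
    rw [Nat.testBit_land, Nat.zero_testBit]
    by_contra h
    rw [Bool.not_eq_false, Bool.and_eq_true] at h
    have hvI := (hx v).1 hv
    have hwI := (hx w).1 h.2
    have h1 := hadjL v (Finset.mem_range.1 (hI hvI)) w (Finset.mem_range.1 (hI hwI)) h.1
    rw [hind v hvI w hwI] at h1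
    exact absurd h1 (by simp)
  have hK : x / 2 ^ p ∈ ll.flatten := by
    rw [← hgen]
    have h1 := gen_complete (sufs adjL p t) (x / 2 ^ p) (okS_sufs hxadj t)
    rw [sufs_length, Nat.mod_eq_of_lt] at h1
    · exact h1
    · rw [Nat.div_lt_iff_lt_mul (by positivity), ← pow_add, add_comm, ← hn]
      exact hxn
  obtain ⟨pt, hpt, hc1, hc2⟩ := hcov (x % 2 ^ q) (Nat.mod_lt _ (by positivity))
  obtain ⟨hp1, hp2⟩ := hpl pt hpt
  have hfz : (x % 2 ^ p) &&& pt.1 = 0 := by
    apply Nat.eq_of_testBit_eq
    intro i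
    have h1 := congrArg (fun z => Nat.testBit z i) hc1
    simp only [Nat.testBit_land, Nat.testBit_mod_two_pow, Nat.zero_testBit] at h1 ⊢
    by_cases hi : i < q
    · have hip : i < p := by omega
      simpa [hi, hip] using h1
    · rw [Nat.testBit_lt_two_pow (lt_of_lt_of_le hp1 (Nat.pow_le_pow_right (by norm_num)
        (by omega))), Bool.and_false]
  have hfo : sb pt.2 (x % 2 ^ p) := by
    rw [sb_iff] at hc2 ⊢
    intro i hi
    have h1 := hc2 i hi
    rw [Nat.testBit_mod_two_pow, Bool.and_eq_true, decide_eq_true_eq] at h1 ⊢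
    exact ⟨by omega, h1.2⟩
  have h := chk_sound hb (hchk pt hpt) (fun m hm' => by
      obtain ⟨cl, hcl, hm''⟩ := List.mem_flatMap.1 hm'
      intro v hv
      rw [← hn]
      exact hm cl hcl m hm'' v hv) (x := x) (fun j hj hxj => by
      have h1 := hxadj j hxj
      have h2 : (adjL.take p)[j] = adjL.getD j 0 := by
        have h3 : j < adjL.length := by
          rw [List.length_take] at hj
          omega
        rw [List.getElem_take, List.getD_eq_getElem _ _ h3]
      rw [h2]
      exact h1) hK hfz hfo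
  rw [val_eq hx]
  have h' : (fP ((lits.map decCls).flatMap fun cl => cl.2) x : ℤ) ≤
      D + fN ((lits.map decCls).flatMap fun cl => cl.2) x := by exact_mod_cast h
  linarith

end Pool.Agent.H39Chif
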